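import Mathlib

set_option autoImplicit false

/-!
Dirichlet polynomials with coefficients supported on given primes, their products, mean squares, and the truncated
exponentials of sums over primes.
-/

namespace Pool.Agent.V11104.SM

open Finset MeasureTheory

/-- the character `n ↦ n^{-it}` -/
noncomputable def chi (t : ℝ) : ℕ →* ℂ where
  toFun n := (n : ℂ) ^ (-(t * Complex.I))
  map_one' := by simp
  map_mul' m n := by
    push_cast
    exact Complex.natCast_mul_natCast_cpow m n _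

lemma chi_apply (t : ℝ) (n : ℕ) : chi t n = (n : ℂ) ^ (-(t * Complex.I)) := rfl

lemma chi_exp (t : ℝ) {n : ℕ} (hn : 0 < n) : chi t n = Complex.exp (-((t * Real.log n : ℝ) : ℂ) * Complex.I) := by
  rw [chi_apply, Complex.cpow_def_of_ne_zero (by exact_mod_cast hn.ne'), ← Complex.natCast_log]
  congr 1
  push_cast
  ring

lemma chi_conj (t : ℝ) {n m : ℕ} (hn : 0 < n) (hm : 0 < m) :
    chi t n * (starRingEnd ℂ) (chi t m) =
      Complex.exp ((((Real.log m - Real.log n : ℝ) : ℂ) * Complex.I) * t) := by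
  rw [chi_exp t hn, chi_exp t hm, ← Complex.exp_conj, ← Complex.exp_add]
  congr 1
  simp only [map_mul, map_neg, Complex.conj_ofReal, Complex.conj_I]
  push_cast
  ring

/-- Dirichlet polynomials with prime factors in `P`, frequencies `≤ N`, square sum of the coefficients `≤ Q` -/
def DP (P : Set ℕ) (N Q : ℝ) (f : ℝ → ℂ) : Prop :=
  ∃ (ι : Type) (S : Finset ι) (n : ι → ℕ) (a : ι → ℂ), Set.InjOn n S ∧
    (∀ x ∈ S, 0 < n x ∧ (n x : ℝ) ≤ N ∧ ∀ p : ℕ, p.Prime → p ∣ n x → p ∈ P) ∧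
    (∀ t : ℝ, f t = ∑ x ∈ S, a x * chi t (n x)) ∧ ∑ x ∈ S, ‖a x‖ ^ 2 ≤ Q

theorem DP.one : DP ∅ 1 1 (fun _ => 1) := by
  refine ⟨Unit, {()}, fun _ => 1, fun _ => 1, ?_, ?_, ?_, ?_⟩
  · intro x _ y _ _; rfl
  · intro x _
    refine ⟨one_pos, by norm_num, fun p hp h => ?_⟩
    exact absurd (Nat.dvd_one.mp h) hp.one_lt.ne'
  · intro t; simp
  · simp

theorem DP.mul {P P' : Set ℕ} {N N' Q Q' : ℝ} {f g : ℝ → ℂ} (h : DP P N Q f) (h' : DP P' N' Q' g)
    (hd : ∀ p : ℕ, p.Prime → p ∈ P → p ∉ P') :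
    DP (P ∪ P') (N * N') (Q * Q') (fun t => f t * g t) := by
  classical
  obtain ⟨ι, S, n, a, hinj, hS, hf, hQ⟩ := h
  obtain ⟨ι', S', n', a', hinj', hS', hg, hQ'⟩ := h'
  refine ⟨ι × ι', S ×ˢ S', fun x => n x.1 * n' x.2, fun x => a x.1 * a' x.2, ?_, ?_, ?_, ?_⟩
  · rintro ⟨x, x'⟩ hx ⟨y, y'⟩ hy hxy
    simp only [Finset.coe_product, Set.mem_prod, Finset.mem_coe] at hx hy
    have hxy' : n x * n' x' = n y * n' y' := hxy
    have cop : ∀ u ∈ S, ∀ v ∈ S', Nat.Coprime (n u) (n' v) := by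
      intro u hu v hv
      by_contra hc
      rw [Nat.Prime.not_coprime_iff_dvd] at hc
      obtain ⟨p, hp, h1, h2⟩ := hc
      exact hd p hp ((hS u hu).2.2 p hp h1) ((hS' v hv).2.2 p hp h2)
    have d1 : n x ∣ n y := (cop x hx.1 y' hy.2).dvd_of_dvd_mul_right (hxy' ▸ dvd_mul_right _ _)
    have d2 : n y ∣ n x := (cop y hy.1 x' hx.2).dvd_of_dvd_mul_right (hxy'.symm ▸ dvd_mul_right _ _)
    have e : n x = n y := Nat.dvd_antisymm d1 d2
    have exy : x = y := hinj hx.1 hy.1 e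
    have e' : n' x' = n' y' := by
      rw [e] at hxy'
      exact Nat.eq_of_mul_eq_mul_left (hS y hy.1).1 hxy'
    have exy' : x' = y' := hinj' hx.2 hy.2 e'
    rw [exy, exy']
  · rintro ⟨x, x'⟩ hx
    rw [Finset.mem_product] at hx
    obtain ⟨h1, h2, h3⟩ := hS x hx.1
    obtain ⟨h1', h2', h3'⟩ := hS' x' hx.2
    refine ⟨Nat.mul_pos h1 h1', ?_, fun p hp hdv => ?_⟩
    · push_cast
      have : (0:ℝ) ≤ n x := Nat.cast_nonneg _
      exact mul_le_mul h2 h2' (Nat.cast_nonneg _) (this.trans h2)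
    · rcases (Nat.Prime.dvd_mul hp).mp hdv with h | h
      · exact Or.inl (h3 p hp h)
      · exact Or.inr (h3' p hp h)
  · intro t
    show f t * g t = _
    rw [hf, hg, Finset.sum_mul_sum, Finset.sum_product]
    refine Finset.sum_congr rfl fun x _ => Finset.sum_congr rfl fun y _ => ?_
    simp only [map_mul]
    ring
  · have e : ∑ x ∈ S ×ˢ S', ‖a x.1 * a' x.2‖ ^ 2 = (∑ x ∈ S, ‖a x‖ ^ 2) * ∑ x ∈ S', ‖a' x‖ ^ 2 := by
      rw [Finset.sum_mul_sum, Finset.sum_product]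
      refine Finset.sum_congr rfl fun x _ => Finset.sum_congr rfl fun y _ => ?_
      rw [norm_mul, mul_pow]
    rw [e]
    have h1 : 0 ≤ ∑ x ∈ S, ‖a x‖ ^ 2 := Finset.sum_nonneg fun _ _ => by positivity
    have h2 : 0 ≤ ∑ x ∈ S', ‖a' x‖ ^ 2 := Finset.sum_nonneg fun _ _ => by positivity
    exact mul_le_mul hQ hQ' h2 (h1.trans hQ)

theorem DP.prod (J : ℕ) (P : ℕ → Set ℕ) (N Q : ℕ → ℝ) (f : ℕ → ℝ → ℂ) (h : ∀ i < J, DP (P i) (N i) (Q i) (f i))
    (hd : ∀ i j, i < j → j < J → ∀ p : ℕ, p.Prime → p ∈ P i → p ∉ P j) :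
    DP (⋃ i ∈ Set.Iio J, P i) (∏ i ∈ range J, N i) (∏ i ∈ range J, Q i) (fun t => ∏ i ∈ range J, f i t) := by
  induction J with
  | zero =>
    have e : (⋃ i ∈ Set.Iio 0, P i) = ∅ := by
      ext x; simp
    rw [e]
    simp only [range_zero, prod_empty]
    exact DP.one
  | succ J ih =>
    have h1 := ih (fun i hi => h i (hi.trans J.lt_succ_self))
      (fun i j hij hj => hd i j hij (hj.trans J.lt_succ_self))
    have h2 := h1.mul (h J J.lt_succ_self) (by
      intro p hp hpm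
      simp only [Set.mem_iUnion, Set.mem_Iio] at hpm
      obtain ⟨i, hi, hpi⟩ := hpm
      exact hd i J hi J.lt_succ_self p hp hpi)
    have e : (⋃ i ∈ Set.Iio (J + 1), P i) = (⋃ i ∈ Set.Iio J, P i) ∪ P J := by
      ext x
      simp only [Set.mem_iUnion, Set.mem_Iio, Set.mem_union]
      constructor
      · rintro ⟨i, hi, hx⟩
        rcases Nat.lt_succ_iff_lt_or_eq.mp hi with h | h
        · exact Or.inl ⟨i, h, hx⟩
        · subst h; exact Or.inr hx
      · rintro (⟨i, hi, hx⟩ | hx)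
        · exact ⟨i, hi.trans J.lt_succ_self, hx⟩
        · exact ⟨J, J.lt_succ_self, hx⟩
    rw [e, prod_range_succ, prod_range_succ]
    simp_rw [prod_range_succ]
    exact h2

lemma int_exp {c : ℝ} (hc : c ≠ 0) (a b : ℝ) :
    ‖∫ t in a..b, Complex.exp (((c : ℂ) * Complex.I) * t)‖ ≤ 2 / |c| := by
  have hc' : ((c : ℂ) * Complex.I) ≠ 0 := by
    simp [hc]
  rw [integral_exp_mul_complex hc', norm_div]
  have e : ‖(c : ℂ) * Complex.I‖ = |c| := by simp
  rw [e]
  have n1 : ∀ x : ℝ, ‖Complex.exp (((c : ℂ) * Complex.I) * x)‖ = 1 := by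
    intro x
    have : ((c : ℂ) * Complex.I) * x = ((c * x : ℝ) : ℂ) * Complex.I := by push_cast; ring
    rw [this, Complex.norm_exp_ofReal_mul_I]
  have h := norm_sub_le (Complex.exp (((c : ℂ) * Complex.I) * b)) (Complex.exp (((c : ℂ) * Complex.I) * a))
  rw [n1, n1] at h
  have hcp : 0 < |c| := abs_pos.mpr hc
  gcongr
  linarith

lemma log_sep {m n : ℕ} (hm : 0 < m) (hn : 0 < n) (hne : m ≠ n) {N : ℝ} (h1 : (m : ℝ) ≤ N) (h2 : (n : ℝ) ≤ N) :
    1 / N ≤ |Real.log m - Real.log n| := by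
  wlog h : n < m generalizing m n with H
  · rw [abs_sub_comm]
    exact H hn hm hne.symm h2 h1 (by omega)
  have hm0 : (0:ℝ) < m := by exact_mod_cast hm
  have hn0 : (0:ℝ) < n := by exact_mod_cast hn
  have hmn : (n:ℝ) + 1 ≤ m := by exact_mod_cast h
  have e : Real.log m - Real.log n = Real.log (m / n) := by rw [Real.log_div hm0.ne' hn0.ne']
  rw [e]
  have h3 : 1 - (m / n : ℝ)⁻¹ ≤ Real.log (m / n) := Real.one_sub_inv_le_log_of_pos (by positivity)
  have h4 : 1 / N ≤ 1 - (m / n : ℝ)⁻¹ := by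
    rw [inv_div]
    have h5 : 1 / N ≤ 1 / m := one_div_le_one_div_of_le hm0 h1
    have h6 : 1 / (m:ℝ) ≤ 1 - n / m := by
      rw [le_sub_iff_add_le, ← add_div, div_le_one hm0]
      linarith
    linarith
  exact (h4.trans h3).trans (le_abs_self _)

lemma DP.cont {P : Set ℕ} {N Q : ℝ} {f : ℝ → ℂ} (h : DP P N Q f) : Continuous f := by
  obtain ⟨ι, S, n, a, hinj, hS, hf, hQ⟩ := h
  have : f = fun t => ∑ x ∈ S, a x * chi t (n x) := funext hf
  rw [this]
  refine continuous_finsetSum _ fun x hx => continuous_const.mul ?_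
  have e : (fun t => chi t (n x)) = fun t : ℝ => Complex.exp (-((t * Real.log (n x) : ℝ) : ℂ) * Complex.I) :=
    funext fun t => chi_exp t (hS x hx).1
  rw [e]
  fun_prop

/-- the mean square -/
theorem DP.mean {P : Set ℕ} {N Q : ℝ} {f : ℝ → ℂ} (h : DP P N Q f) (hN : 1 ≤ N) (T : ℝ) {H : ℝ} (hH : 0 ≤ H) :
    ∫ t in T..(T + H), ‖f t‖ ^ 2 ≤ (H + 2 * N ^ 2) * Q := by
  classical
  obtain ⟨ι, S, n, a, hinj, hS, hf, hQ⟩ := h
  have hN0 : 0 < N := by linarith
  set E : ι → ι → ℝ → ℂ := fun x y t => Complex.exp ((((Real.log (n y) - Real.log (n x) : ℝ) : ℂ) * Complex.I) * t)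
    with hE
  have hEc : ∀ x y, Continuous (E x y) := by
    intro x y
    simp only [hE]
    fun_prop
  have e1 : ∀ t : ℝ, ((‖f t‖ ^ 2 : ℝ) : ℂ) = ∑ x ∈ S, ∑ y ∈ S, a x * (starRingEnd ℂ) (a y) * E x y t := by
    intro t
    have : ((‖f t‖ ^ 2 : ℝ) : ℂ) = f t * (starRingEnd ℂ) (f t) := by
      rw [Complex.mul_conj']; push_cast; rfl
    rw [this, hf, map_sum, Finset.sum_mul_sum]
    refine Finset.sum_congr rfl fun x hx => Finset.sum_congr rfl fun y hy => ?_
    rw [map_mul]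
    have h2 := chi_conj t (hS x hx).1 (hS y hy).1
    simp only [hE]
    rw [← h2]
    ring
  have e2 : ((∫ t in T..(T + H), ‖f t‖ ^ 2 : ℝ) : ℂ) =
      ∑ x ∈ S, ∑ y ∈ S, a x * (starRingEnd ℂ) (a y) * ∫ t in T..(T + H), E x y t := by
    have hc1 : ∀ x y, Continuous (fun t => a x * (starRingEnd ℂ) (a y) * E x y t) := fun x y =>
      continuous_const.mul (hEc x y)
    have hc2 : ∀ x, Continuous (fun t => ∑ y ∈ S, a x * (starRingEnd ℂ) (a y) * E x y t) := fun x =>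
      continuous_finsetSum _ fun y _ => hc1 x y
    rw [← intervalIntegral.integral_ofReal]
    simp_rw [e1]
    have i1 := intervalIntegral.integral_finsetSum (μ := volume) (a := T) (b := T + H) (s := S)
      (f := fun x t => ∑ y ∈ S, a x * (starRingEnd ℂ) (a y) * E x y t)
      (fun x _ => (hc2 x).intervalIntegrable _ _)
    rw [i1]
    refine Finset.sum_congr rfl fun x _ => ?_
    have i2 := intervalIntegral.integral_finsetSum (μ := volume) (a := T) (b := T + H) (s := S)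
      (f := fun y t => a x * (starRingEnd ℂ) (a y) * E x y t)
      (fun y _ => (hc1 x y).intervalIntegrable _ _)
    rw [i2]
    refine Finset.sum_congr rfl fun y _ => ?_
    rw [intervalIntegral.integral_const_mul]
  have hb : ∀ x ∈ S, ∀ y ∈ S, ‖∫ t in T..(T + H), E x y t‖ ≤ (if x = y then H else 0) + 2 * N := by
    intro x hx y hy
    by_cases hxy : x = y
    · subst hxy
      have : ∀ t, E x x t = 1 := by intro t; simp [hE]
      simp_rw [this]
      simp [abs_of_nonneg hH]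
      linarith
    · rw [if_neg hxy, zero_add]
      have hne : n y ≠ n x := fun he => hxy (hinj hx hy he.symm)
      have hs := log_sep (hS y hy).1 (hS x hx).1 hne (hS y hy).2.1 (hS x hx).2.1
      have hpos : 0 < |Real.log (n y) - Real.log (n x)| := lt_of_lt_of_le (by positivity) hs
      have hc : Real.log (n y) - Real.log (n x) ≠ 0 := abs_pos.mp hpos
      refine (int_exp hc T (T + H)).trans ?_
      rw [div_le_iff₀ hpos]
      calc (2:ℝ) = 2 * N * (1 / N) := by field_simp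
        _ ≤ _ := mul_le_mul_of_nonneg_left hs (by positivity)
  have hcard : (S.card : ℝ) ≤ N := by
    have h1 : S.card ≤ (Finset.Icc 1 ⌊N⌋₊).card := by
      refine Finset.card_le_card_of_injOn n (fun x hx => ?_) hinj
      rw [Finset.mem_coe, Finset.mem_Icc]
      exact ⟨(hS x hx).1, Nat.le_floor (hS x hx).2.1⟩
    rw [Nat.card_Icc, Nat.add_sub_cancel] at h1
    exact (by exact_mod_cast h1 : (S.card : ℝ) ≤ ⌊N⌋₊).trans (Nat.floor_le hN0.le)
  have e3 : ∫ t in T..(T + H), ‖f t‖ ^ 2 ≤ ‖((∫ t in T..(T + H), ‖f t‖ ^ 2 : ℝ) : ℂ)‖ := by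
    rw [Complex.norm_real]; exact le_abs_self _
  refine e3.trans ?_
  rw [e2]
  have hSS : 0 ≤ ∑ x ∈ S, ‖a x‖ ^ 2 := Finset.sum_nonneg fun _ _ => by positivity
  calc ‖∑ x ∈ S, ∑ y ∈ S, a x * (starRingEnd ℂ) (a y) * ∫ t in T..(T + H), E x y t‖
      ≤ ∑ x ∈ S, ∑ y ∈ S, ‖a x‖ * ‖a y‖ * ((if x = y then H else 0) + 2 * N) := by
        refine (norm_sum_le _ _).trans (Finset.sum_le_sum fun x hx => (norm_sum_le _ _).trans
          (Finset.sum_le_sum fun y hy => ?_))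
        rw [norm_mul, norm_mul, RCLike.norm_conj]
        exact mul_le_mul_of_nonneg_left (hb x hx y hy) (by positivity)
    _ = H * (∑ x ∈ S, ‖a x‖ ^ 2) + 2 * N * (∑ x ∈ S, ‖a x‖) ^ 2 := by
        have : ∀ x ∈ S, ∑ y ∈ S, ‖a x‖ * ‖a y‖ * ((if x = y then H else 0) + 2 * N) =
            H * ‖a x‖ ^ 2 + 2 * N * (‖a x‖ * ∑ y ∈ S, ‖a y‖) := by
          intro x hx
          simp_rw [mul_add]
          rw [Finset.sum_add_distrib]
          congr 1
          · simp_rw [mul_ite, mul_zero]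
            rw [Finset.sum_ite_eq, if_pos hx]
            ring
          · rw [Finset.mul_sum, Finset.mul_sum]
            exact Finset.sum_congr rfl fun y _ => by ring
        rw [Finset.sum_congr rfl this, Finset.sum_add_distrib, ← Finset.mul_sum, ← Finset.mul_sum,
          ← Finset.sum_mul, sq]
    _ ≤ H * Q + 2 * N * (N * Q) := by
        have h1 : (∑ x ∈ S, ‖a x‖) ^ 2 ≤ S.card * ∑ x ∈ S, ‖a x‖ ^ 2 := sq_sum_le_card_mul_sum_sq
        have h2 : (S.card : ℝ) * ∑ x ∈ S, ‖a x‖ ^ 2 ≤ N * Q := mul_le_mul hcard hQ hSS hN0.le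
        have h3 := mul_le_mul_of_nonneg_left hQ hH
        have h4 := mul_le_mul_of_nonneg_left (h1.trans h2) (by positivity : (0:ℝ) ≤ 2 * N)
        linarith
    _ = _ := by ring

/-! ### truncated exponentials -/

/-- the product of the powers -/
def npow (A : Finset ℕ) (a : ℕ → ℕ) : ℕ := ∏ p ∈ A, p ^ a p

lemma npow_fact {A : Finset ℕ} (hA : ∀ p ∈ A, p.Prime) (a : ℕ → ℕ) {p : ℕ} (hp : p ∈ A) :
    (npow A a).factorization p = a p := by
  classical
  unfold npow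
  rw [Nat.factorization_prod (fun q hq => pow_ne_zero _ (hA q hq).ne_zero), Finset.sum_apply']
  have : ∀ q ∈ A, (q ^ a q).factorization p = if q = p then a q else 0 := by
    intro q hq
    rw [(hA q hq).factorization_pow, Finsupp.single_apply]
  rw [Finset.sum_congr rfl this, Finset.sum_ite_eq', if_pos hp]

theorem DP.base {A : Finset ℕ} (hA : ∀ p ∈ A, p.Prime) {b : ℝ} (hb : ∀ p ∈ A, (p:ℝ) ≤ b) (hb1 : 1 ≤ b)
    (x : ℕ → ℂ) (U : Finset ℕ) (K : ℕ) (hU : ∀ k ∈ U, k ≤ K) :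
    DP (A : Set ℕ) (b ^ K) (∑ k ∈ U, (∑ p ∈ A, ‖x p‖ ^ 2) ^ k / (k.factorial : ℝ))
      (fun t => ∑ k ∈ U, (∑ p ∈ A, x p * chi t p) ^ k / (k.factorial : ℂ)) := by
  classical
  have hsum : ∀ k : ℕ, ∀ a ∈ (A.piAntidiag k : Finset (ℕ → ℕ)), ∑ p ∈ A, a p = k := fun k a ha => (Finset.mem_piAntidiag.mp ha).1
  have hdj : (U : Set ℕ).PairwiseDisjoint (fun k : ℕ => (A.piAntidiag k : Finset (ℕ → ℕ))) := by
    intro k _ l _ hkl
    rw [Function.onFun, Finset.disjoint_left]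
    intro a h1 h2
    exact hkl ((hsum k a h1).symm.trans (hsum l a h2))
  refine ⟨ℕ → ℕ, (U.biUnion (fun k => A.piAntidiag k) : Finset (ℕ → ℕ)), npow A,
    fun a => ∏ p ∈ A, (x p ^ a p / ((a p).factorial : ℂ)), ?_, ?_, ?_, ?_⟩
  · intro a ha a' ha' h
    simp only [Finset.coe_biUnion, Set.mem_iUnion, Finset.mem_coe, Finset.mem_piAntidiag] at ha ha'
    obtain ⟨k, _, _, hk⟩ := ha
    obtain ⟨k', _, _, hk'⟩ := ha'
    funext p
    by_cases hp : p ∈ A
    · rw [← npow_fact hA a hp, ← npow_fact hA a' hp, h]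
    · have h1 : a p = 0 := by
        by_contra h0; exact hp (hk p h0)
      have h2 : a' p = 0 := by
        by_contra h0; exact hp (hk' p h0)
      rw [h1, h2]
  · intro a ha
    rw [Finset.mem_biUnion] at ha
    obtain ⟨k, hk, ha⟩ := ha
    refine ⟨Finset.prod_pos fun p hp => pow_pos (hA p hp).pos _, ?_, fun p hp hdv => ?_⟩
    · unfold npow
      push_cast
      calc ∏ p ∈ A, (p:ℝ) ^ a p ≤ ∏ p ∈ A, b ^ a p :=
            Finset.prod_le_prod (fun p _ => by positivity) fun p hp =>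
              pow_le_pow_left₀ (Nat.cast_nonneg p) (hb p hp) _
        _ = b ^ k := by rw [Finset.prod_pow_eq_pow_sum, hsum k a ha]
        _ ≤ b ^ K := pow_le_pow_right₀ hb1 (hU k hk)
    · unfold npow at hdv
      obtain ⟨q, hq, hpq⟩ := (Prime.dvd_finsetProd_iff hp.prime _).mp hdv
      have := hp.dvd_of_dvd_pow hpq
      have := (Nat.prime_dvd_prime_iff_eq hp (hA q hq)).mp this
      rw [this]; exact hq
  · intro t
    rw [Finset.sum_biUnion hdj]
    refine Finset.sum_congr rfl fun k _ => ?_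
    rw [Finset.sum_pow_eq_sum_piAntidiag, Finset.sum_div]
    refine Finset.sum_congr rfl fun a ha => ?_
    have h1 := Nat.multinomial_spec A a
    rw [hsum k a ha] at h1
    have h2 : (k.factorial : ℂ) = (∏ p ∈ A, ((a p).factorial : ℂ)) * (Nat.multinomial A a : ℂ) := by
      rw [← h1]; push_cast; rfl
    have h3 : (∏ p ∈ A, ((a p).factorial : ℂ)) ≠ 0 :=
      Finset.prod_ne_zero_iff.mpr fun p _ => by exact_mod_cast (a p).factorial_ne_zero
    have h4 : (k.factorial : ℂ) ≠ 0 := by exact_mod_cast k.factorial_ne_zero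
    have h5 : (Nat.multinomial A a : ℂ) ≠ 0 := by
      intro h0; rw [h0, mul_zero] at h2; exact h4 h2
    have h6 : chi t (npow A a) = ∏ p ∈ A, chi t p ^ a p := by
      unfold npow
      rw [map_prod]
      exact Finset.prod_congr rfl fun p _ => map_pow _ _ _
    show _ = (∏ p ∈ A, (x p ^ a p / ((a p).factorial : ℂ))) * chi t (npow A a)
    rw [h6, Finset.prod_div_distrib, h2]
    have h7 : ∏ p ∈ A, (x p * chi t p) ^ a p = (∏ p ∈ A, x p ^ a p) * ∏ p ∈ A, chi t p ^ a p := by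
      rw [← Finset.prod_mul_distrib]
      exact Finset.prod_congr rfl fun p _ => mul_pow _ _ _
    rw [h7]
    field_simp
  · rw [Finset.sum_biUnion hdj]
    refine Finset.sum_le_sum fun k _ => ?_
    rw [Finset.sum_pow_eq_sum_piAntidiag, Finset.sum_div]
    refine Finset.sum_le_sum fun a ha => ?_
    have h1 := Nat.multinomial_spec A a
    rw [hsum k a ha] at h1
    have h2 : (k.factorial : ℝ) = (∏ p ∈ A, ((a p).factorial : ℝ)) * (Nat.multinomial A a : ℝ) := by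
      rw [← h1]; push_cast; rfl
    set F : ℝ := ∏ p ∈ A, ((a p).factorial : ℝ) with hF
    have hF1 : 1 ≤ F := by
      rw [hF]
      calc (1:ℝ) = ∏ _p ∈ A, (1:ℝ) := by simp
        _ ≤ _ := Finset.prod_le_prod (fun _ _ => zero_le_one) fun p _ => by
          exact_mod_cast (a p).factorial_pos
    have hF0 : 0 < F := by linarith
    have h5 : (0:ℝ) < Nat.multinomial A a := by
      rcases (Nat.cast_nonneg (α := ℝ) (Nat.multinomial A a)).lt_or_eq with h | h
      · exact h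
      · rw [← h, mul_zero] at h2
        exact absurd h2 (by exact_mod_cast k.factorial_ne_zero)
    show ‖∏ p ∈ A, (x p ^ a p / ((a p).factorial : ℂ))‖ ^ 2 ≤ _
    rw [norm_prod]
    simp_rw [norm_div, norm_pow, Complex.norm_natCast]
    rw [Finset.prod_div_distrib, ← hF, div_pow]
    have h7 : (∏ p ∈ A, ‖x p‖ ^ a p) ^ 2 = ∏ p ∈ A, (‖x p‖ ^ 2) ^ a p := by
      rw [← Finset.prod_pow]
      exact Finset.prod_congr rfl fun p _ => by ring
    rw [h7, h2]
    have h8 : 0 ≤ ∏ p ∈ A, (‖x p‖ ^ 2) ^ a p := Finset.prod_nonneg fun _ _ => by positivity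
    have e : (Nat.multinomial A a : ℝ) * (∏ p ∈ A, (‖x p‖ ^ 2) ^ a p) / (F * (Nat.multinomial A a : ℝ)) =
        (∏ p ∈ A, (‖x p‖ ^ 2) ^ a p) / F := by
      field_simp
    rw [e]
    exact div_le_div_of_nonneg_left h8 hF0 (by nlinarith)

/-- the truncated exponential -/
theorem DP.texp {A : Finset ℕ} (hA : ∀ p ∈ A, p.Prime) {b : ℝ} (hb : ∀ p ∈ A, (p:ℝ) ≤ b) (hb1 : 1 ≤ b)
    (x : ℕ → ℂ) (K : ℕ) :
    DP (A : Set ℕ) (b ^ K) (Real.exp (∑ p ∈ A, ‖x p‖ ^ 2))
      (fun t => ∑ k ∈ range (K + 1), (∑ p ∈ A, x p * chi t p) ^ k / (k.factorial : ℂ)) := by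
  have h := DP.base hA hb hb1 x (range (K + 1)) K (fun k hk => by rw [mem_range] at hk; omega)
  obtain ⟨ι, S, n, a, h1, h2, h3, h4⟩ := h
  refine ⟨ι, S, n, a, h1, h2, h3, h4.trans ?_⟩
  exact Real.sum_le_exp_of_nonneg (Finset.sum_nonneg fun _ _ => by positivity) (K + 1)

/-- the high moments of a sum over primes -/
theorem pow_mean {A : Finset ℕ} (hA : ∀ p ∈ A, p.Prime) {b : ℝ} (hb : ∀ p ∈ A, (p:ℝ) ≤ b) (hb1 : 1 ≤ b)
    (x : ℕ → ℂ) (r : ℕ) (T : ℝ) {H : ℝ} (hH : 0 ≤ H) :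
    ∫ t in T..(T + H), ‖∑ p ∈ A, x p * chi t p‖ ^ (2 * r) ≤
      (H + 2 * (b ^ r) ^ 2) * ((r.factorial : ℝ) * (∑ p ∈ A, ‖x p‖ ^ 2) ^ r) := by
  have h := DP.base hA hb hb1 x {r} r (fun k hk => by rw [mem_singleton] at hk; omega)
  have h1 := h.mean (one_le_pow₀ hb1) T hH
  simp only [sum_singleton] at h1
  have hf : (0:ℝ) < r.factorial := by exact_mod_cast r.factorial_pos
  have e : ∀ t, ‖(∑ p ∈ A, x p * chi t p) ^ r / (r.factorial : ℂ)‖ ^ 2 =
      ((r.factorial : ℝ) ^ 2)⁻¹ * ‖∑ p ∈ A, x p * chi t p‖ ^ (2 * r) := by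
    intro t
    rw [norm_div, norm_pow, Complex.norm_natCast, div_pow, ← pow_mul, mul_comm r 2]
    field_simp
  simp_rw [e] at h1
  rw [intervalIntegral.integral_const_mul, inv_mul_le_iff₀ (by positivity)] at h1
  refine h1.trans (le_of_eq ?_)
  field_simp

end Pool.Agent.V11104.SM
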