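import Mathlib
import Pool.Agent.Helper256.KM.Mertens

set_option autoImplicit false

/-!
Sums over the primes up to a power of `T` and the Riemann zeta function on the line `1 + 1 / log T`.
-/

namespace Pool.Agent.V11104.SM

open Finset Filter Topology

lemma norm_pc (p : Nat.Primes) (s : ℂ) : ‖((p:ℕ) : ℂ) ^ (-s)‖ = ((p:ℕ) : ℝ) ^ (-s.re) := by
  rw [Complex.norm_natCast_cpow_of_pos p.2.pos]
  simp

lemma summable_pc {s : ℂ} (hs : 1 < s.re) : Summable (fun p : Nat.Primes => ((p:ℕ) : ℂ) ^ (-s)) := by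
  refine Summable.of_norm ?_
  simp_rw [norm_pc]
  exact Nat.Primes.summable_rpow.mpr (by linarith)

/-- the logarithm of zeta and the prime zeta function -/
lemma log_zeta_prime : ∃ C : ℝ, 0 ≤ C ∧ ∀ s : ℂ, 1 < s.re →
    |Real.log ‖riemannZeta s‖ - (∑' p : Nat.Primes, ((p:ℕ) : ℂ) ^ (-s)).re| ≤ C := by
  have hC : Summable (fun p : Nat.Primes => ((p:ℕ) : ℝ) ^ (-2 : ℝ)) := Nat.Primes.summable_rpow.mpr (by norm_num)
  refine ⟨∑' p : Nat.Primes, ((p:ℕ) : ℝ) ^ (-2 : ℝ), tsum_nonneg fun p => by positivity, fun s hs => ?_⟩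
  have h1 := riemannZeta_eulerProduct_exp_log hs
  have hsum := summable_pc hs
  have hsl : Summable (fun p : Nat.Primes => -Complex.log (1 - ((p:ℕ) : ℂ) ^ (-s))) :=
    (hsum.clog_one_sub).neg
  rw [← h1, Complex.norm_exp, Real.log_exp, ← Complex.sub_re, ← hsl.tsum_sub hsum]
  refine (Complex.abs_re_le_norm _).trans ?_
  have hb : ∀ p : Nat.Primes, ‖-Complex.log (1 - ((p:ℕ) : ℂ) ^ (-s)) - ((p:ℕ) : ℂ) ^ (-s)‖ ≤
      ((p:ℕ) : ℝ) ^ (-2 : ℝ) := by
    intro p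
    set z := ((p:ℕ) : ℂ) ^ (-s) with hz
    have hp2 : (2:ℝ) ≤ (p:ℕ) := by exact_mod_cast p.2.two_le
    have hn : ‖z‖ = ((p:ℕ) : ℝ) ^ (-s.re) := norm_pc p s
    have hn1 : ‖z‖ ≤ ((p:ℕ) : ℝ) ^ (-1 : ℝ) := by
      rw [hn]
      exact Real.rpow_le_rpow_of_exponent_le (by linarith) (by linarith)
    have hhalf : ((p:ℕ) : ℝ) ^ (-1 : ℝ) ≤ 1 / 2 := by
      rw [Real.rpow_neg_one, inv_eq_one_div]
      exact one_div_le_one_div_of_le (by norm_num) hp2
    have hz1 : ‖-z‖ < 1 := by rw [norm_neg]; linarith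
    have h2 := Complex.norm_log_one_add_sub_self_le hz1
    rw [norm_neg] at h2
    have e : -Complex.log (1 - z) - z = -(Complex.log (1 + -z) - -z) := by
      rw [← sub_eq_add_neg]; ring
    rw [e, norm_neg]
    refine h2.trans ?_
    have h3 : (1 - ‖z‖)⁻¹ ≤ 2 := by
      rw [inv_le_comm₀ (by linarith) (by norm_num)]
      linarith
    have h4 : ‖z‖ ^ 2 * (1 - ‖z‖)⁻¹ / 2 ≤ ‖z‖ ^ 2 := by
      have : 0 ≤ ‖z‖ ^ 2 := by positivity
      nlinarith
    refine h4.trans ?_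
    have h5 : ‖z‖ ^ 2 ≤ (((p:ℕ) : ℝ) ^ (-1 : ℝ)) ^ 2 := pow_le_pow_left₀ (norm_nonneg _) hn1 2
    refine h5.trans (le_of_eq ?_)
    rw [← Real.rpow_natCast, ← Real.rpow_mul (by linarith)]
    norm_num
  exact tsum_of_norm_bounded hC.hasSum hb

/-- the primes up to `y` -/
noncomputable def PP (y : ℝ) : Finset ℕ := (Icc 1 ⌊y⌋₊).filter Nat.Prime

lemma mem_PP {y : ℝ} {p : ℕ} (hy : 0 ≤ y) : p ∈ PP y ↔ p.Prime ∧ (p:ℝ) ≤ y := by
  unfold PP
  rw [mem_filter, mem_Icc, Nat.le_floor_iff hy]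
  constructor
  · rintro ⟨⟨_, h2⟩, h3⟩; exact ⟨h3, h2⟩
  · rintro ⟨h3, h2⟩; exact ⟨⟨h3.one_lt.le, h2⟩, h3⟩

/-- the prime zeta function compared with a partial sum -/
lemma prime_tail {σ : ℝ} (hσ : 1 < σ) (h y : ℝ) :
    ‖(∑' p : Nat.Primes, ((p:ℕ) : ℂ) ^ (-((σ : ℂ) + h * Complex.I))) -
      ∑ p ∈ PP y, (p : ℂ) ^ (-(1 + h * Complex.I))‖ ≤
      (∑' p : Nat.Primes, ((p:ℕ) : ℝ) ^ (-σ)) + ∑ p ∈ PP y, (1:ℝ) / p - 2 * ∑ p ∈ PP y, (p : ℝ) ^ (-σ) := by
  classical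
  have hs : Summable (fun p : Nat.Primes => ((p:ℕ) : ℝ) ^ (-σ)) := Nat.Primes.summable_rpow.mpr (by linarith)
  have hre : ((σ : ℂ) + h * Complex.I).re = σ := by simp
  have hc : Summable (fun p : Nat.Primes => ((p:ℕ) : ℂ) ^ (-((σ : ℂ) + h * Complex.I))) :=
    summable_pc (by rw [hre]; exact hσ)
  have hpr : ∀ p ∈ PP y, p.Prime := fun p hp => (mem_filter.mp hp).2
  set F : Finset Nat.Primes := (PP y).subtype Nat.Prime with hF
  have hmap : ∀ {M : Type} [AddCommMonoid M] (g : ℕ → M), ∑ p ∈ PP y, g p = ∑ p ∈ F, g (p : ℕ) := by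
    intro M _ g
    exact (Finset.sum_subtype_of_mem g hpr).symm
  have e1 := hc.sum_add_tsum_compl (s := F)
  have e2 := hs.sum_add_tsum_compl (s := F)
  rw [← e1, ← e2, hmap (fun p => (p : ℂ) ^ (-(1 + h * Complex.I))), hmap (fun p => (1:ℝ) / p),
    hmap (fun p => (p : ℝ) ^ (-σ))]
  have t1 : ‖∑' p : ↥((F : Set Nat.Primes)ᶜ), (((p : Nat.Primes) : ℕ) : ℂ) ^ (-((σ : ℂ) + h * Complex.I))‖ ≤
      ∑' p : ↥((F : Set Nat.Primes)ᶜ), (((p : Nat.Primes) : ℕ) : ℝ) ^ (-σ) := by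
    refine tsum_of_norm_bounded (hs.subtype _).hasSum fun p => ?_
    rw [norm_pc, hre]
    rfl
  have t2 : ‖(∑ p ∈ F, ((p : ℕ) : ℂ) ^ (-((σ : ℂ) + h * Complex.I))) -
      ∑ p ∈ F, ((p : ℕ) : ℂ) ^ (-(1 + h * Complex.I))‖ ≤ ∑ p ∈ F, ((1:ℝ) / (p:ℕ) - ((p : ℕ) : ℝ) ^ (-σ)) := by
    rw [← Finset.sum_sub_distrib]
    refine norm_sum_le_of_le _ fun p _ => ?_
    have hp1 : (1:ℝ) < (p:ℕ) := by exact_mod_cast p.2.one_lt
    have hp0 : (0:ℝ) < (p:ℕ) := by linarith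
    have hne : ((p:ℕ) : ℂ) ≠ 0 := by exact_mod_cast p.2.ne_zero
    have e3 : ((p : ℕ) : ℂ) ^ (-((σ : ℂ) + h * Complex.I)) - ((p : ℕ) : ℂ) ^ (-(1 + h * Complex.I)) =
        ((((p:ℕ):ℝ) ^ (-σ) - 1 / ((p:ℕ):ℝ) : ℝ) : ℂ) * ((p : ℕ) : ℂ) ^ (-(h * Complex.I)) := by
      rw [neg_add, neg_add, Complex.cpow_add _ _ hne, Complex.cpow_add _ _ hne]
      push_cast
      rw [Complex.ofReal_cpow hp0.le]
      push_cast
      rw [Complex.cpow_neg_one]
      ring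
    rw [e3, norm_mul, Complex.norm_natCast_cpow_of_pos p.2.pos]
    have e4 : (-(h * Complex.I) : ℂ).re = 0 := by simp
    rw [e4, Real.rpow_zero, mul_one, Complex.norm_real, Real.norm_eq_abs, abs_sub_comm, abs_of_nonneg]
    rw [sub_nonneg, one_div, ← Real.rpow_neg_one]
    exact Real.rpow_le_rpow_of_exponent_le hp1.le (by linarith)
  rw [Finset.sum_sub_distrib] at t2
  have t3 := norm_add_le ((∑ p ∈ F, ((p : ℕ) : ℂ) ^ (-((σ : ℂ) + h * Complex.I))) -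
      ∑ p ∈ F, ((p : ℕ) : ℂ) ^ (-(1 + h * Complex.I)))
    (∑' p : ↥((F : Set Nat.Primes)ᶜ), (((p : Nat.Primes) : ℕ) : ℂ) ^ (-((σ : ℂ) + h * Complex.I)))
  have e5 : (∑ p ∈ F, ((p : ℕ) : ℂ) ^ (-((σ : ℂ) + h * Complex.I))) +
      (∑' p : ↥((F : Set Nat.Primes)ᶜ), (((p : Nat.Primes) : ℕ) : ℂ) ^ (-((σ : ℂ) + h * Complex.I))) -
      ∑ p ∈ F, ((p : ℕ) : ℂ) ^ (-(1 + h * Complex.I)) =
      ((∑ p ∈ F, ((p : ℕ) : ℂ) ^ (-((σ : ℂ) + h * Complex.I))) -
      ∑ p ∈ F, ((p : ℕ) : ℂ) ^ (-(1 + h * Complex.I))) +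
      (∑' p : ↥((F : Set Nat.Primes)ᶜ), (((p : Nat.Primes) : ℕ) : ℂ) ^ (-((σ : ℂ) + h * Complex.I))) := by ring
  rw [e5]
  linarith

/-- sums over the primes up to a power of `T` -/
theorem eul (c : ℝ) (hc : 0 < c) : ∃ C : ℝ, 0 ≤ C ∧ ∀ᶠ T : ℝ in atTop, ∀ y : ℝ, T ^ c ≤ y → y ≤ T → ∀ h : ℝ,
    |(∑ p ∈ PP y, (p : ℂ) ^ (-(1 + h * Complex.I))).re -
      Real.log ‖riemannZeta (1 + 1 / Real.log T + h * Complex.I)‖| ≤ C := by
  obtain ⟨C₁, hC₁, h1⟩ := log_zeta_prime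
  obtain ⟨C₂, h2⟩ := Pool.Agent.Helper256.KM.mertens_log
  obtain ⟨C₃, h3⟩ := Pool.Agent.Helper256.KM.mertens_inv
  have hC₂ : 0 ≤ C₂ := (abs_nonneg _).trans (h2 1 le_rfl)
  have hC₃ : 0 ≤ C₃ := (abs_nonneg _).trans (h3 3 le_rfl)
  -- the size of zeta near 1
  have hz : ∀ᶠ T : ℝ in atTop, Real.log ‖riemannZeta ((1 + 1 / Real.log T : ℝ) : ℂ)‖ ≤
      Real.log 2 + Real.log (Real.log T) := by
    have t1 : Tendsto (fun T : ℝ => ((1 + 1 / Real.log T : ℝ) : ℂ)) atTop (𝓝[≠] 1) := by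
      refine tendsto_nhdsWithin_iff.mpr ⟨?_, ?_⟩
      · have t2 : Tendsto (fun T : ℝ => 1 + 1 / Real.log T) atTop (𝓝 (1 + 0)) := by
          refine tendsto_const_nhds.add ?_
          have := Real.tendsto_log_atTop.inv_tendsto_atTop
          refine this.congr fun T => ?_
          simp
        rw [add_zero] at t2
        have := (Complex.continuous_ofReal.tendsto 1).comp t2
        rw [Complex.ofReal_one] at this
        exact this
      · filter_upwards [Real.tendsto_log_atTop.eventually_gt_atTop 0] with T hT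
        rw [Set.mem_compl_iff, Set.mem_singleton_iff]
        intro he
        have : (1 + 1 / Real.log T : ℝ) = 1 := by exact_mod_cast he
        have h5 : 0 < 1 / Real.log T := by positivity
        linarith
    have t3 := (riemannZeta_residue_one.comp t1).norm
    rw [norm_one] at t3
    filter_upwards [t3.eventually (gt_mem_nhds (show (1:ℝ) < 2 by norm_num)),
      t3.eventually (lt_mem_nhds (show (1/2:ℝ) < 1 by norm_num)),
      Real.tendsto_log_atTop.eventually_gt_atTop 0] with T hT hT' hL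
    simp only [Function.comp] at hT hT'
    rw [norm_mul] at hT hT'
    have e : ‖((1 + 1 / Real.log T : ℝ) : ℂ) - 1‖ = 1 / Real.log T := by
      have : ((1 + 1 / Real.log T : ℝ) : ℂ) - 1 = ((1 / Real.log T : ℝ) : ℂ) := by push_cast; ring
      rw [this, Complex.norm_real, Real.norm_eq_abs, abs_of_pos (by positivity)]
    rw [e] at hT hT'
    have hpos : 0 < ‖riemannZeta ((1 + 1 / Real.log T : ℝ) : ℂ)‖ := by
      by_contra h0
      have : ‖riemannZeta ((1 + 1 / Real.log T : ℝ) : ℂ)‖ = 0 := le_antisymm (not_lt.mp h0) (norm_nonneg _)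
      rw [this] at hT'
      norm_num at hT'
    rw [← Real.log_mul (by norm_num) hL.ne']
    refine Real.log_le_log hpos ?_
    have : 1 / Real.log T * ‖riemannZeta ((1 + 1 / Real.log T : ℝ) : ℂ)‖ * Real.log T =
        ‖riemannZeta ((1 + 1 / Real.log T : ℝ) : ℂ)‖ := by field_simp
    rw [← this]
    exact mul_le_mul_of_nonneg_right hT.le hL.le
  refine ⟨2 * C₁ + |Real.log c| + 2 * (C₃ + 1) + 2 * (C₂ + 2) + 3, by positivity, ?_⟩
  have hTc : Tendsto (fun T : ℝ => T ^ c) atTop atTop := tendsto_rpow_atTop hc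
  filter_upwards [hz, eventually_gt_atTop (1:ℝ), hTc.eventually_ge_atTop 3,
    Real.tendsto_log_atTop.eventually_ge_atTop 1, hTc.eventually_ge_atTop (Real.exp 1)] with T hzT hT1 hTc3 hL1 hTce y hy1 hy2 h
  have hT0 : 0 < T := by linarith
  set L := Real.log T with hLd
  have hL0 : 0 < L := by linarith
  have hy3 : 3 ≤ y := hTc3.trans hy1
  have hy0 : 0 < y := by linarith
  set σ : ℝ := 1 + 1 / L with hσ
  have hσ1 : 1 < σ := by
    have : 0 < 1 / L := by positivity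
    linarith
  have es : ((σ : ℂ) + h * Complex.I) = 1 + 1 / (L : ℂ) + h * Complex.I := by
    rw [hσ]; push_cast; ring
  have a1 := h1 ((σ : ℂ) + h * Complex.I) (by simp; linarith)
  have a2 := h1 (σ : ℂ) (by simpa using hσ1)
  have a3 := prime_tail hσ1 h y
  -- the real prime zeta function
  have e6 : (∑' p : Nat.Primes, ((p:ℕ) : ℂ) ^ (-(σ:ℂ))).re = ∑' p : Nat.Primes, ((p:ℕ) : ℝ) ^ (-σ) := by
    have : ∀ p : Nat.Primes, ((p:ℕ) : ℂ) ^ (-(σ:ℂ)) = ((((p:ℕ) : ℝ) ^ (-σ) : ℝ) : ℂ) := by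
      intro p
      rw [Complex.ofReal_cpow (Nat.cast_nonneg _)]
      push_cast
      rfl
    simp_rw [this]
    rw [← Complex.ofReal_tsum, Complex.ofReal_re]
  rw [e6] at a2
  have a4 : ∑' p : Nat.Primes, ((p:ℕ) : ℝ) ^ (-σ) ≤ Real.log 2 + Real.log L + C₁ := by
    have := (abs_le.mp a2).1
    linarith
  -- Mertens
  have hfl : 3 ≤ ⌊y⌋₊ := Nat.le_floor (by exact_mod_cast hy3)
  have hfl' : (⌊y⌋₊ : ℝ) ≤ y := Nat.floor_le hy0.le
  have hfl3 : (3:ℝ) ≤ ⌊y⌋₊ := by exact_mod_cast hfl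
  have m1 := h2 ⌊y⌋₊ (by omega)
  have m2 := h3 ⌊y⌋₊ hfl
  have hly : Real.log y ≤ L := Real.log_le_log hy0 hy2
  have hlf : Real.log ⌊y⌋₊ ≤ L := (Real.log_le_log (by linarith) hfl').trans hly
  have b1 : ∑ p ∈ PP y, Real.log p / p ≤ L + C₂ := by
    have := (abs_le.mp m1).2
    have e : ∑ p ∈ PP y, Real.log p / p = ∑ p ∈ (Finset.Icc 1 ⌊y⌋₊).filter Nat.Prime, Real.log p / p := rfl
    rw [e]; linarith
  have hcL : c * L ≤ Real.log y := by
    have := Real.log_le_log (by positivity) hy1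
    rwa [Real.log_rpow hT0] at this
  have hly1 : 1 ≤ Real.log y := by
    rw [Real.le_log_iff_exp_le hy0]; exact hTce.trans hy1
  have b2 : Real.log c + Real.log L - C₃ - 1 ≤ ∑ p ∈ PP y, (1:ℝ) / p := by
    have h5 := (abs_le.mp m2).1
    have e : ∑ p ∈ PP y, (1:ℝ) / p = ∑ p ∈ (Finset.Icc 1 ⌊y⌋₊).filter Nat.Prime, (1:ℝ) / p := rfl
    rw [e]
    have l3 : 1 < Real.log 3 := by
      have := Real.exp_one_lt_d9
      rw [Real.lt_log_iff_exp_lt (by norm_num)]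
      linarith
    have l1 : 1 < Real.log ⌊y⌋₊ := l3.trans_le (Real.log_le_log (by norm_num) hfl3)
    have l4 : Real.log y - Real.log ⌊y⌋₊ ≤ 1 := by
      rw [← Real.log_div (by linarith) (by linarith)]
      have := Real.log_le_sub_one_of_pos (x := y / ⌊y⌋₊) (by positivity)
      have h5 : y < ⌊y⌋₊ + 1 := Nat.lt_floor_add_one y
      have h6 : y / ⌊y⌋₊ ≤ 2 := by rw [div_le_iff₀ (by linarith)]; linarith
      linarith
    have l6 : Real.log (Real.log y) - Real.log (Real.log ⌊y⌋₊) ≤ 1 := by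
      rw [← Real.log_div (by linarith) (by linarith)]
      have := Real.log_le_sub_one_of_pos (x := Real.log y / Real.log ⌊y⌋₊) (div_pos (by linarith) (by linarith))
      have h6 : Real.log y / Real.log ⌊y⌋₊ ≤ 2 := by rw [div_le_iff₀ (by linarith)]; linarith
      linarith
    have l7 : Real.log c + Real.log L ≤ Real.log (Real.log y) := by
      rw [← Real.log_mul hc.ne' hL0.ne']
      exact Real.log_le_log (by positivity) hcL
    linarith
  have b3 : ∑ p ∈ PP y, (1:ℝ) / p - 1 - C₂ ≤ ∑ p ∈ PP y, (p : ℝ) ^ (-σ) := by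
    have h6 : ∀ p ∈ PP y, (1:ℝ) / p - Real.log p / p / L ≤ (p : ℝ) ^ (-σ) := by
      intro p hp
      have hpp : p.Prime := (mem_filter.mp hp).2
      have hp0 : (0:ℝ) < p := by exact_mod_cast hpp.pos
      have e : (p : ℝ) ^ (-σ) = 1 / p * Real.exp (-(Real.log p / L)) := by
        have e9 : (1:ℝ) / p = Real.exp (-Real.log p) := by rw [Real.exp_neg, Real.exp_log hp0, one_div]
        rw [hσ, Real.rpow_def_of_pos hp0, e9, ← Real.exp_add]
        congr 1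
        ring
      rw [e]
      have h7 := Real.add_one_le_exp (-(Real.log p / L))
      have h8 : 0 ≤ 1 / (p:ℝ) := by positivity
      have h9 := mul_le_mul_of_nonneg_left h7 h8
      refine le_trans (le_of_eq ?_) h9
      ring
    have h7 := Finset.sum_le_sum h6
    rw [Finset.sum_sub_distrib, ← Finset.sum_div] at h7
    have h8 : (∑ p ∈ PP y, Real.log p / p) / L ≤ 1 + C₂ := by
      rw [div_le_iff₀ hL0]
      nlinarith
    linarith
  have hre := Complex.abs_re_le_norm ((∑' p : Nat.Primes, ((p:ℕ) : ℂ) ^ (-((σ : ℂ) + h * Complex.I))) -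
      ∑ p ∈ PP y, (p : ℂ) ^ (-(1 + h * Complex.I)))
  rw [Complex.sub_re] at hre
  have hre2 := hre.trans a3
  rw [es] at a1 hre2
  have hl2 : Real.log 2 ≤ 1 := by have := Real.log_two_lt_d9; linarith
  have hlc := neg_abs_le (Real.log c)
  rw [abs_le] at hre2 a1 ⊢
  have key : (∑' p : Nat.Primes, ((p:ℕ) : ℝ) ^ (-σ)) + ∑ p ∈ PP y, (1:ℝ) / p - 2 * ∑ p ∈ PP y, (p : ℝ) ^ (-σ) ≤
      C₁ + |Real.log c| + 2 * (C₃ + 1) + 2 * (C₂ + 2) + 3 := by linarith
  constructor <;> linarith [a1.1, a1.2, hre2.1, hre2.2]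

end Pool.Agent.V11104.SM
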