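import Mathlib
import Pool.Agent.W184.NZ.Ranges
import Pool.Agent.V11104.SM.DP
import Pool.Agent.V11104.SM.Eul

set_option autoImplicit false

/-!
Blocks of primes: truncated exponentials, mean squares, large values.
-/

namespace Pool.Agent.V11104.SM

open Finset Filter Topology MeasureTheory
open Pool.Agent.W184.NZ (bb II vI Rg mem_II bb_pos log_bb bb_le II_disj)

/-- truncated exponential -/
noncomputable def TE (K : ℕ) (z : ℂ) : ℂ := ∑ k ∈ range (K + 1), z ^ k / (k.factorial : ℂ)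

/-- the degrees -/
def Kd (n Rs i : ℕ) : ℕ := 20 * (n * (2 * (Rs + i)))

lemma trunc_err {M : ℝ} (hM : 0 ≤ M) (n : ℕ) {z : ℂ} (hz : ‖z‖ ≤ M) :
    ‖Complex.exp z - ∑ m ∈ range n, z ^ m / (m.factorial : ℂ)‖ ≤ Real.exp (20 * M) / 20 ^ n := by
  have h1 : HasSum (fun m : ℕ => z ^ m / (m.factorial : ℂ)) (Complex.exp z) := by
    rw [Complex.exp_eq_exp_ℂ]; exact NormedSpace.expSeries_div_hasSum_exp z
  have h2 : HasSum (fun m : ℕ => (20 * M) ^ m / (m.factorial : ℝ)) (Real.exp (20 * M)) := by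
    rw [Real.exp_eq_exp_ℝ]; exact NormedSpace.expSeries_div_hasSum_exp (20 * M)
  rw [← hasSum_nat_add_iff' n] at h1 h2
  have h3 := h2.mul_left ((20:ℝ) ^ n)⁻¹
  have h4 : ∀ m : ℕ, ‖z ^ (m + n) / ((m + n).factorial : ℂ)‖ ≤
      ((20:ℝ) ^ n)⁻¹ * ((20 * M) ^ (m + n) / ((m + n).factorial : ℝ)) := by
    intro m
    rw [norm_div, norm_pow, Complex.norm_natCast]
    have hf : (0:ℝ) < ((m + n).factorial : ℝ) := by exact_mod_cast (m + n).factorial_pos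
    rw [← mul_div_assoc]
    refine div_le_div_of_nonneg_right ?_ hf.le
    calc ‖z‖ ^ (m + n) ≤ M ^ (m + n) := pow_le_pow_left₀ (norm_nonneg _) hz _
      _ ≤ 20 ^ m * M ^ (m + n) := le_mul_of_one_le_left (by positivity) (one_le_pow₀ (by norm_num))
      _ = ((20:ℝ) ^ n)⁻¹ * (20 * M) ^ (m + n) := by
        rw [mul_pow, pow_add (20:ℝ) m n]
        field_simp
  have h5 := tsum_of_norm_bounded h3 h4
  rw [h1.tsum_eq] at h5
  refine h5.trans ?_
  rw [inv_mul_eq_div]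
  refine div_le_div_of_nonneg_right ?_ (by positivity)
  have : 0 ≤ ∑ i ∈ range n, (20 * M) ^ i / (i.factorial : ℝ) := sum_nonneg fun _ _ => by positivity
  linarith

lemma trunc {M : ℝ} (hM : 0 ≤ M) {K : ℕ} (hK : 20 * M ≤ K) {z : ℂ} (hz : ‖z‖ ≤ M) :
    Real.exp z.re * (1 - Real.exp (-(18 * M))) ≤ ‖TE K z‖ := by
  have h1 := trunc_err hM (K + 1) hz
  have h2 : Real.exp (20 * M) / 20 ^ (K + 1) ≤ Real.exp (-(19 * M)) := by
    have h6 : Real.exp (40 * M) ≤ 20 ^ (K + 1) := by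
      have e2 : Real.exp 2 ≤ 20 := by
        have : Real.exp 2 = Real.exp 1 * Real.exp 1 := by rw [← Real.exp_add]; norm_num
        rw [this]
        have := Real.exp_one_lt_d9
        nlinarith [Real.exp_pos 1]
      calc Real.exp (40 * M) ≤ Real.exp (((K + 1 : ℕ) : ℝ) * 2) := by
            refine Real.exp_le_exp.mpr ?_
            push_cast
            linarith
        _ = Real.exp 2 ^ (K + 1) := by rw [Real.exp_nat_mul]
        _ ≤ _ := pow_le_pow_left₀ (Real.exp_pos _).le e2 _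
    calc Real.exp (20 * M) / 20 ^ (K + 1) ≤ Real.exp (20 * M) / Real.exp (40 * M) := by gcongr
      _ = Real.exp (-(20 * M)) := by rw [← Real.exp_sub]; congr 1; ring
      _ ≤ _ := Real.exp_le_exp.mpr (by linarith)
  have h3 : Real.exp z.re ≤ ‖TE K z‖ + Real.exp (-(19 * M)) := by
    rw [← Complex.norm_exp]
    have h7 := norm_le_norm_add_norm_sub' (Complex.exp z) (TE K z)
    have h8 : ‖Complex.exp z - TE K z‖ ≤ Real.exp (-(19 * M)) := h1.trans h2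
    linarith
  have h4 : Real.exp (-(19 * M)) ≤ Real.exp z.re * Real.exp (-(18 * M)) := by
    rw [← Real.exp_add]
    refine Real.exp_le_exp.mpr ?_
    have := Complex.abs_re_le_norm z
    have := (abs_le.mp (this.trans hz)).1
    linarith
  nlinarith

lemma prod_ge (J : ℕ) (η : ℕ → ℝ) (h0 : ∀ i < J, η i ≤ (1 / 2 : ℝ) ^ (i + 2)) :
    1 / 2 + (1 / 2 : ℝ) ^ (J + 1) ≤ ∏ i ∈ range J, (1 - η i) := by
  induction J with
  | zero => norm_num
  | succ J ih =>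
    rw [prod_range_succ]
    have h1 := ih fun i hi => h0 i (hi.trans J.lt_succ_self)
    have h2 := h0 J J.lt_succ_self
    have hx : 0 < (1 / 2 : ℝ) ^ J := by positivity
    have hx1 : (1 / 2 : ℝ) ^ J ≤ 1 := pow_le_one₀ (by norm_num) (by norm_num)
    have e1 : (1 / 2 : ℝ) ^ (J + 1) = (1 / 2 : ℝ) ^ J / 2 := by rw [pow_succ]; ring
    have e2 : (1 / 2 : ℝ) ^ (J + 2) = (1 / 2 : ℝ) ^ J / 4 := by rw [pow_add]; ring
    have e3 : (1 / 2 : ℝ) ^ (J + 1 + 1) = (1 / 2 : ℝ) ^ J / 4 := by rw [pow_add, pow_succ]; ring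
    rw [e1] at h1
    rw [e2] at h2
    rw [e3]
    set x := (1 / 2 : ℝ) ^ J
    have h3 : (1 / 2 + x / 2) * (1 - x / 4) ≤ (∏ i ∈ range J, (1 - η i)) * (1 - η J) := by
      refine mul_le_mul h1 (by linarith) (by linarith) ?_
      linarith
    nlinarith

/-- exponentials and truncated exponentials -/
theorem majorant {n Rs J : ℕ} (hn : 1 ≤ n) (hRs : 1 ≤ Rs) {z : ℕ → ℂ}
    (hz : ∀ i < J, ‖z i‖ ≤ n * (2 * (Rs + i))) :
    Real.exp (∑ i ∈ range J, (z i).re) ≤ 2 * ‖∏ i ∈ range J, TE (Kd n Rs i) (z i)‖ := by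
  set M : ℕ → ℝ := fun i => n * (2 * (Rs + i)) with hM
  have hn1 : (1:ℝ) ≤ n := by exact_mod_cast hn
  have hR1 : (1:ℝ) ≤ Rs := by exact_mod_cast hRs
  have hM0 : ∀ i : ℕ, 2 * ((i:ℝ) + 1) ≤ M i := by
    intro i
    have : (0:ℝ) ≤ i := Nat.cast_nonneg i
    simp only [hM]
    nlinarith
  set η : ℕ → ℝ := fun i => Real.exp (-(18 * M i)) with hη
  have h1 : ∀ i < J, η i ≤ (1 / 2 : ℝ) ^ (i + 2) := by
    intro i _
    have e : (1 / 2 : ℝ) ^ (i + 2) = Real.exp (-((i + 2 : ℕ) : ℝ) * Real.log 2) := by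
      rw [← Real.rpow_natCast, Real.rpow_def_of_pos (by norm_num), one_div, Real.log_inv]
      congr 1; ring
    rw [e]
    refine Real.exp_le_exp.mpr ?_
    have := hM0 i
    have hl := Real.log_two_lt_d9
    have hi : (0:ℝ) ≤ i := Nat.cast_nonneg i
    push_cast
    nlinarith
  have h2 := prod_ge J η h1
  have h3 : (1:ℝ) / 2 ≤ ∏ i ∈ range J, (1 - η i) := by
    have : (0:ℝ) < (1 / 2 : ℝ) ^ (J + 1) := by positivity
    linarith
  have h4 : (∏ i ∈ range J, Real.exp (z i).re) * ∏ i ∈ range J, (1 - η i) ≤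
      ∏ i ∈ range J, ‖TE (Kd n Rs i) (z i)‖ := by
    rw [← prod_mul_distrib]
    refine prod_le_prod (fun i hi => ?_) fun i hi => ?_
    · have h5 := h1 i (mem_range.mp hi)
      have : (1 / 2 : ℝ) ^ (i + 2) ≤ 1 := pow_le_one₀ (by norm_num) (by norm_num)
      have : 0 ≤ 1 - η i := by linarith
      positivity
    · refine trunc (by have := hM0 i; have hi : (0:ℝ) ≤ i := Nat.cast_nonneg i; linarith) ?_ (hz i (mem_range.mp hi))
      unfold Kd
      push_cast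
      exact le_rfl
  rw [norm_prod, Real.exp_sum]
  have h6 : 0 ≤ ∏ i ∈ range J, Real.exp (z i).re := prod_nonneg fun _ _ => (Real.exp_pos _).le
  nlinarith

/-- the twisted sums over the blocks -/
noncomputable def Z (y : ℝ) (cp : ℕ → ℂ) (i : ℕ) (t : ℝ) : ℂ :=
  ∑ p ∈ II y i, cp p * (p : ℂ) ^ (-(1 / 2 + t * Complex.I))

lemma pow_half {p : ℕ} (hp : p.Prime) (t : ℝ) :
    (p : ℂ) ^ (-(1 / 2 + t * Complex.I)) = (p : ℂ) ^ (-(1 / 2 : ℂ)) * chi t p := by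
  rw [chi_apply, ← Complex.cpow_add _ _ (by exact_mod_cast hp.ne_zero), neg_add]

lemma norm_half {p : ℕ} (hp : p.Prime) : ‖(p : ℂ) ^ (-(1 / 2 : ℂ))‖ ^ 2 = 1 / (p:ℝ) := by
  rw [Complex.norm_natCast_cpow_of_pos hp.pos, ← Real.rpow_natCast, ← Real.rpow_mul (Nat.cast_nonneg _)]
  have : (-(1 / 2 : ℂ)).re * ((2:ℕ) : ℝ) = -1 := by simp
  rw [this, Real.rpow_neg_one, one_div]

lemma Z_chi (y : ℝ) (cp : ℕ → ℂ) (i : ℕ) (t : ℝ) :
    Z y cp i t = ∑ p ∈ II y i, (cp p * (p : ℂ) ^ (-(1 / 2 : ℂ))) * chi t p := by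
  unfold Z
  refine sum_congr rfl fun p hp => ?_
  rw [pow_half (mem_II.mp hp).1]
  ring

lemma Z_sq (y : ℝ) (cp : ℕ → ℂ) (i : ℕ) :
    ∑ p ∈ II y i, ‖cp p * (p : ℂ) ^ (-(1 / 2 : ℂ))‖ ^ 2 = ∑ p ∈ II y i, ‖cp p‖ ^ 2 / p := by
  refine sum_congr rfl fun p hp => ?_
  rw [norm_mul, mul_pow, norm_half (mem_II.mp hp).1]
  ring

/-- mean squares of the products -/
theorem mean_D {y c : ℝ} {J : ℕ} (hR : Rg c J (II y) (bb y)) (hy : 1 ≤ y) (n Rs : ℕ) (cp : ℕ → ℂ) (T : ℝ) {H : ℝ}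
    (hH : 0 ≤ H) :
    Continuous (fun t => ∏ i ∈ range J, TE (Kd n Rs i) (Z y cp i t)) ∧
    ∫ t in T..(T + H), ‖∏ i ∈ range J, TE (Kd n Rs i) (Z y cp i t)‖ ^ 2 ≤
      (H + 2 * (∏ i ∈ range J, (bb y i) ^ (Kd n Rs i)) ^ 2) *
        Real.exp (∑ i ∈ range J, ∑ p ∈ II y i, ‖cp p‖ ^ 2 / p) := by
  have hb1 : ∀ i < J, 1 ≤ bb y i := fun i hi => by linarith [hR.b10 i hi]
  have h1 := DP.prod J (fun i => ((II y i : Finset ℕ) : Set ℕ)) (fun i => (bb y i) ^ (Kd n Rs i))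
    (fun i => Real.exp (∑ p ∈ II y i, ‖cp p‖ ^ 2 / p)) (fun i t => TE (Kd n Rs i) (Z y cp i t))
    (fun i hi => by
      have h2 := DP.texp (A := II y i) (fun p hp => (mem_II.mp hp).1) (b := bb y i)
        (fun p hp => (mem_II.mp hp).2.2.2) (hb1 i hi) (fun p => cp p * (p : ℂ) ^ (-(1 / 2 : ℂ))) (Kd n Rs i)
      rw [Z_sq] at h2
      have e : (fun t => TE (Kd n Rs i) (Z y cp i t)) = fun t => ∑ k ∈ range (Kd n Rs i + 1),
          (∑ p ∈ II y i, (cp p * (p : ℂ) ^ (-(1 / 2 : ℂ))) * chi t p) ^ k / (k.factorial : ℂ) := by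
        funext t
        unfold TE
        rw [Z_chi]
      rw [e]
      exact h2)
    (fun i j hij _ p _ hpi hpj => by
      exact (Finset.disjoint_left.mp (II_disj hy hij)) (Finset.mem_coe.mp hpi) (Finset.mem_coe.mp hpj))
  refine ⟨h1.cont, ?_⟩
  have h2 := h1.mean (by
    calc (1:ℝ) = ∏ _i ∈ range J, (1:ℝ) := by simp
      _ ≤ _ := prod_le_prod (fun _ _ => zero_le_one) fun i hi => one_le_pow₀ (hb1 i (mem_range.mp hi))) T hH
  rw [Real.exp_sum]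
  exact h2

lemma sum_quarter (Rs J : ℕ) : ∑ i ∈ range J, ((Rs:ℝ) + i) * (1 / 4) ^ i =
    4 / 3 * Rs + 4 / 9 - (4 / 3 * Rs + 4 / 3 * J + 4 / 9) * (1 / 4) ^ J := by
  induction J with
  | zero => simp
  | succ J ih =>
    rw [sum_range_succ, ih, pow_succ]
    push_cast
    ring

/-- the lengths -/
lemma len (y : ℝ) (hy : 1 ≤ y) (n Rs J : ℕ) :
    ∏ i ∈ range J, (bb y i) ^ (Kd n Rs i) ≤ Real.exp (54 * n * (Rs + 1) * Real.log y) := by
  have hl : 0 ≤ Real.log y := Real.log_nonneg hy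
  have e : ∀ i, (bb y i) ^ (Kd n Rs i) = Real.exp (40 * n * Real.log y * (((Rs:ℝ) + i) * (1 / 4) ^ i)) := by
    intro i
    unfold bb Kd
    rw [← Real.exp_nat_mul]
    congr 1
    push_cast
    ring
  simp_rw [e]
  rw [← Real.exp_sum, ← mul_sum, sum_quarter]
  refine Real.exp_le_exp.mpr ?_
  have h1 : (4 / 3 * (Rs:ℝ) + 4 / 9 - (4 / 3 * Rs + 4 / 3 * J + 4 / 9) * (1 / 4) ^ J) ≤ 4 / 3 * ((Rs:ℝ) + 1) := by
    have h2 : 0 ≤ (4 / 3 * (Rs:ℝ) + 4 / 3 * J + 4 / 9) * (1 / 4) ^ J := by positivity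
    linarith
  have h3 : 0 ≤ 40 * (n:ℝ) * Real.log y := by positivity
  calc 40 * (n:ℝ) * Real.log y * (4 / 3 * (Rs:ℝ) + 4 / 9 - (4 / 3 * Rs + 4 / 3 * J + 4 / 9) * (1 / 4) ^ J)
      ≤ 40 * (n:ℝ) * Real.log y * (4 / 3 * ((Rs:ℝ) + 1)) := mul_le_mul_of_nonneg_left h1 h3
    _ ≤ 54 * n * (Rs + 1) * Real.log y := by
      have : 0 ≤ (n:ℝ) * (Rs + 1) * Real.log y := by positivity
      nlinarith

/-- Chebyshev's inequality on an interval -/
lemma cheb {T H : ℝ} (hH : 0 ≤ H) {f : ℝ → ℂ} (hf : Continuous f) {R : ℝ} (hR : 0 < R) (r : ℕ) :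
    volume.real (Set.Icc T (T + H) ∩ {t | R < ‖f t‖}) ≤ (∫ t in T..(T + H), ‖f t‖ ^ (2 * r)) / R ^ (2 * r) := by
  have hc : Continuous fun t => ‖f t‖ ^ (2 * r) := by fun_prop
  have hi : IntegrableOn (fun t => ‖f t‖ ^ (2 * r)) (Set.Icc T (T + H)) := hc.continuousOn.integrableOn_Icc
  have h1 := mul_meas_ge_le_integral_of_nonneg (μ := volume.restrict (Set.Icc T (T + H)))
    (f := fun t => ‖f t‖ ^ (2 * r)) (Filter.Eventually.of_forall fun t => by positivity) hi (R ^ (2 * r))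
  rw [intervalIntegral.integral_of_le (by linarith), ← integral_Icc_eq_integral_Ioc, le_div_iff₀ (by positivity),
    mul_comm]
  refine le_trans (mul_le_mul_of_nonneg_left ?_ (by positivity)) h1
  have hm : MeasurableSet {t | R ^ (2 * r) ≤ ‖f t‖ ^ (2 * r)} := measurableSet_le measurable_const hc.measurable
  rw [measureReal_restrict_apply hm, Set.inter_comm]
  refine measureReal_mono (fun t ht => ⟨?_, ht.2⟩) (measure_ne_top_of_subset Set.inter_subset_right (by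
    rw [Real.volume_Icc]; exact ENNReal.ofReal_ne_top))
  exact pow_le_pow_left₀ hR.le (le_of_lt ht.1) _

/-- large values of one block are rare -/
theorem bad_block {y c : ℝ} {J : ℕ} (hR : Rg c J (II y) (bb y)) (hy : 1 ≤ y) {Rs : ℕ} (hRs : 1 ≤ Rs)
    (hc : 2 * c ≤ 2 * Rs) {i : ℕ} (hi : i < J) (T : ℝ) {H : ℝ}
    (hH : 2 * Real.exp (4 * (Rs + 1) * Real.log y) ≤ H) :
    volume.real (Set.Icc T (T + H) ∩ {t | 2 * ((Rs:ℝ) + i) < ‖Z y 1 i t‖}) ≤ 2 * H * (1 / 4) ^ (Rs + i) := by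
  have hH0 : 0 ≤ H := le_trans (by positivity) hH
  set r : ℕ := 2 * (Rs + i) with hr
  have hr1 : 1 ≤ r := by omega
  have hrR : (r:ℝ) = 2 * ((Rs:ℝ) + i) := by rw [hr]; push_cast; ring
  have hr0 : (0:ℝ) < r := by exact_mod_cast hr1
  have hb1 : 1 ≤ bb y i := by linarith [hR.b10 i hi]
  have hcont : Continuous (fun t => Z y 1 i t) := by
    have e : (fun t => Z y 1 i t) = fun t => ∑ k ∈ ({1} : Finset ℕ), (∑ p ∈ II y i, ((1 : ℕ → ℂ) p *
        (p : ℂ) ^ (-(1 / 2 : ℂ))) * chi t p) ^ k / (k.factorial : ℂ) := by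
      funext t
      rw [Z_chi]; simp
    rw [e]
    exact (DP.base (fun p hp => (mem_II.mp hp).1) (fun p hp => (mem_II.mp hp).2.2.2) hb1 _ {1} 1
      (fun k hk => by rw [mem_singleton] at hk; omega)).cont
  have h1 := cheb (T := T) hH0 hcont (R := (r:ℝ)) hr0 r
  have h2 := pow_mean (A := II y i) (fun p hp => (mem_II.mp hp).1) (b := bb y i)
    (fun p hp => (mem_II.mp hp).2.2.2) hb1 (fun p => (1 : ℕ → ℂ) p * (p : ℂ) ^ (-(1 / 2 : ℂ))) r T hH0
  rw [Z_sq] at h2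
  have e1 : ∀ t, Z y 1 i t = ∑ p ∈ II y i, ((1 : ℕ → ℂ) p * (p : ℂ) ^ (-(1 / 2 : ℂ))) * chi t p := Z_chi y 1 i
  simp_rw [← e1] at h2
  have e2 : ∑ p ∈ II y i, ‖(1 : ℕ → ℂ) p‖ ^ 2 / (p:ℝ) = vI (II y i) := by
    unfold vI
    refine sum_congr rfl fun p _ => ?_
    simp
  rw [e2] at h2
  have hv := hR.v i hi
  have hv0 : 0 ≤ vI (II y i) := sum_nonneg fun _ _ => by positivity
  have h3 : 2 * ((bb y i) ^ r) ^ 2 ≤ H := by
    refine le_trans ?_ hH
    refine mul_le_mul_of_nonneg_left ?_ (by norm_num)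
    unfold bb
    rw [← Real.exp_nat_mul, ← Real.exp_nat_mul]
    refine Real.exp_le_exp.mpr ?_
    have hl : 0 ≤ Real.log y := Real.log_nonneg hy
    rw [hrR]
    have h4 : ((Rs:ℝ) + i) * (1 / 4) ^ i ≤ Rs + 1 := by
      have h5 : (1 / 4 : ℝ) ^ i ≤ 1 := pow_le_one₀ (by norm_num) (by norm_num)
      have h6 : (i:ℝ) * (1 / 4) ^ i ≤ 1 := by
        have h7 : (i:ℝ) ≤ 4 ^ i := by
          have : i < 4 ^ i := Nat.lt_pow_self (by norm_num)
          exact_mod_cast this.le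
        have h8 : (1 / 4 : ℝ) ^ i = 1 / 4 ^ i := by rw [one_div_pow]
        rw [h8, mul_one_div, div_le_one (by positivity)]
        exact h7
      have h9 : (Rs:ℝ) * (1 / 4) ^ i ≤ Rs := mul_le_of_le_one_right (Nat.cast_nonneg _) h5
      nlinarith
    have h10 := mul_le_mul_of_nonneg_left h4 (by positivity : (0:ℝ) ≤ 4 * Real.log y)
    push_cast
    nlinarith
  have h4 : (r.factorial : ℝ) * vI (II y i) ^ r ≤ (1 / 4) ^ (Rs + i) * (r:ℝ) ^ (2 * r) := by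
    have h5 : (r.factorial : ℝ) ≤ (r:ℝ) ^ r := by exact_mod_cast Nat.factorial_le_pow r
    have h6 : vI (II y i) ≤ (1 / 2) * r := by
      rw [hrR]
      have : (0:ℝ) ≤ i := Nat.cast_nonneg i
      linarith
    have h7 : vI (II y i) ^ r ≤ ((1 / 2) * r) ^ r := pow_le_pow_left₀ hv0 h6 r
    calc (r.factorial : ℝ) * vI (II y i) ^ r ≤ (r:ℝ) ^ r * ((1 / 2) * r) ^ r := by gcongr
      _ = (1 / 4) ^ (Rs + i) * (r:ℝ) ^ (2 * r) := by
        have : (1 / 4 : ℝ) ^ (Rs + i) = (1 / 2) ^ r := by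
          rw [hr, pow_mul]; norm_num
        rw [this, mul_pow, two_mul, pow_add]
        ring
  have e3 : {t | 2 * ((Rs:ℝ) + i) < ‖Z y 1 i t‖} = {t | (r:ℝ) < ‖Z y 1 i t‖} := by rw [hrR]
  rw [e3]
  refine h1.trans ?_
  rw [div_le_iff₀ (by positivity)]
  refine h2.trans ?_
  calc (H + 2 * ((bb y i) ^ r) ^ 2) * ((r.factorial : ℝ) * vI (II y i) ^ r)
      ≤ (H + H) * ((1 / 4) ^ (Rs + i) * (r:ℝ) ^ (2 * r)) := by
        gcongr
    _ = _ := by ring

/-- the sum over the primes between `x` and `y` -/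
noncomputable def TL (x y t : ℝ) : ℂ := ∑ p ∈ PP y \ PP x, (p : ℂ) ^ (-(1 / 2 + t * Complex.I))

/-- large values of the sum over a short range of primes are rare -/
theorem bad_tail {x y : ℝ} (hy : 1 ≤ y) {R : ℝ} (hR : 0 < R) (T : ℝ) {H : ℝ}
    (hH : 2 * y ^ 2 ≤ H) :
    Continuous (TL x y) ∧ volume.real (Set.Icc T (T + H) ∩ {t | R < ‖TL x y t‖}) ≤
      2 * H * (∑ p ∈ PP y \ PP x, (1:ℝ) / p) / R ^ 2 := by
  have hH0 : 0 ≤ H := le_trans (by positivity) hH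
  have hpr : ∀ p ∈ PP y \ PP x, p.Prime := fun p hp => (mem_filter.mp (mem_sdiff.mp hp).1).2
  have hpy : ∀ p ∈ PP y \ PP x, (p:ℝ) ≤ y := fun p hp =>
    ((mem_PP (by linarith)).mp (mem_sdiff.mp hp).1).2
  have e1 : ∀ t, TL x y t = ∑ p ∈ PP y \ PP x, (p : ℂ) ^ (-(1 / 2 : ℂ)) * chi t p := by
    intro t
    unfold TL
    exact sum_congr rfl fun p hp => pow_half (hpr p hp) t
  have hcont : Continuous (TL x y) := by
    have e : TL x y = fun t => ∑ k ∈ ({1} : Finset ℕ), (∑ p ∈ PP y \ PP x,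
        (p : ℂ) ^ (-(1 / 2 : ℂ)) * chi t p) ^ k / (k.factorial : ℂ) := by
      funext t
      rw [e1]; simp
    rw [e]
    exact (DP.base hpr hpy hy _ {1} 1 (fun k hk => by rw [mem_singleton] at hk; omega)).cont
  refine ⟨hcont, ?_⟩
  have h1 := cheb (T := T) hH0 hcont hR 1
  have h2 := pow_mean hpr hpy hy (fun p => (p : ℂ) ^ (-(1 / 2 : ℂ))) 1 T hH0
  simp_rw [← e1] at h2
  have e2 : ∑ p ∈ PP y \ PP x, ‖(p : ℂ) ^ (-(1 / 2 : ℂ))‖ ^ 2 = ∑ p ∈ PP y \ PP x, (1:ℝ) / p :=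
    sum_congr rfl fun p hp => norm_half (hpr p hp)
  rw [e2] at h2
  simp only [Nat.factorial_one, Nat.cast_one, one_mul, pow_one] at h2
  have hs : 0 ≤ ∑ p ∈ PP y \ PP x, (1:ℝ) / p := sum_nonneg fun _ _ => by positivity
  refine h1.trans ?_
  rw [mul_one]
  refine div_le_div_of_nonneg_right ?_ (by positivity)
  refine h2.trans ?_
  nlinarith

end Pool.Agent.V11104.SM
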