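import Mathlib
import Pool.Agent.V11104.SM.Blk

set_option autoImplicit false

/-!
The set of the points at which no block of primes is large.
-/

namespace Pool.Agent.V11104.SM

open Finset Filter Topology MeasureTheory
open Pool.Agent.W184.NZ (bb II vI Rg mem_II bb_pos log_bb bb_le II_disj Pr Pr_bound)

lemma chi_cont {n : ℕ} (hn : 0 < n) : Continuous fun t => chi t n := by
  have e : (fun t => chi t n) = fun t : ℝ => Complex.exp (-((t * Real.log n : ℝ) : ℂ) * Complex.I) :=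
    funext fun t => chi_exp t hn
  rw [e]
  fun_prop

lemma Z_cont (y : ℝ) (cp : ℕ → ℂ) (i : ℕ) : Continuous (Z y cp i) := by
  have e : Z y cp i = fun t => ∑ p ∈ II y i, (cp p * (p : ℂ) ^ (-(1 / 2 : ℂ))) * chi t p :=
    funext fun t => Z_chi y cp i t
  rw [e]
  exact continuous_finsetSum _ fun p hp => continuous_const.mul (chi_cont (mem_II.mp hp).1.pos)

lemma TL_cont (x y : ℝ) : Continuous (TL x y) := by
  have e : TL x y = fun t => ∑ p ∈ PP y \ PP x, (p : ℂ) ^ (-(1 / 2 : ℂ)) * chi t p := by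
    funext t
    unfold TL
    exact sum_congr rfl fun p hp => pow_half (mem_filter.mp (Finset.mem_sdiff.mp hp).1).2 t
  rw [e]
  exact continuous_finsetSum _ fun p hp =>
    continuous_const.mul (chi_cont (mem_filter.mp (Finset.mem_sdiff.mp hp).1).2.pos)

/-- no block is large at `s` -/
def Gd (J : ℝ → ℕ) (Rs : ℕ) (R y x s : ℝ) : Prop :=
  (∀ i < J y, ‖Z y 1 i s‖ ≤ 2 * ((Rs:ℝ) + i)) ∧ ‖TL y x s‖ ≤ R

/-- the points at which no block is large, at the neighbouring scales -/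
def SG (J : ℝ → ℕ) (Rs : ℕ) (R δ : ℝ) : Set ℝ :=
  {s | ∀ j : ℕ, (2:ℝ) ^ j ≤ s → s < 2 ^ (j + 1) → ∀ b : ℕ, b < 4 →
    Gd J Rs R ((2:ℝ) ^ (δ * ((j:ℝ) - b))) ((2:ℝ) ^ (δ * j)) s}

lemma Gd_meas (J : ℝ → ℕ) (Rs : ℕ) (R y x : ℝ) : MeasurableSet {s | Gd J Rs R y x s} := by
  have e : {s | Gd J Rs R y x s} = (⋂ i ∈ Set.Iio (J y), {s | ‖Z y 1 i s‖ ≤ 2 * ((Rs:ℝ) + i)}) ∩
      {s | ‖TL y x s‖ ≤ R} := by
    ext s
    simp only [Gd, Set.mem_ofPred_eq, Set.mem_inter_iff, Set.mem_iInter, Set.mem_Iio]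
  rw [e]
  refine MeasurableSet.inter (MeasurableSet.biInter (Set.to_countable _) fun i _ => ?_) ?_
  · exact (isClosed_le (Z_cont y 1 i).norm continuous_const).measurableSet
  · exact (isClosed_le (TL_cont y x).norm continuous_const).measurableSet

lemma SG_measurable (J : ℝ → ℕ) (Rs : ℕ) (R δ : ℝ) : MeasurableSet (SG J Rs R δ) := by
  have e : SG J Rs R δ = ⋂ j : ℕ, ((Set.Ico ((2:ℝ) ^ j) (2 ^ (j + 1)))ᶜ ∪
      ⋂ b ∈ Set.Iio 4, {s | Gd J Rs R ((2:ℝ) ^ (δ * ((j:ℝ) - (b:ℕ)))) ((2:ℝ) ^ (δ * j)) s}) := by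
    ext s
    simp only [SG, Set.mem_ofPred_eq, Set.mem_iInter, Set.mem_union, Set.mem_compl_iff, Set.mem_Ico, Set.mem_Iio,
      not_and, not_lt]
    constructor
    · intro h j
      by_cases h1 : (2:ℝ) ^ j ≤ s ∧ s < 2 ^ (j + 1)
      · exact Or.inr fun b hb => h j h1.1 h1.2 b hb
      · left
        intro h2
        by_contra h3
        exact h1 ⟨h2, not_le.mp h3⟩
    · intro h j h1 h2 b hb
      rcases h j with h3 | h3
      · exact absurd h2 (not_lt.mpr (h3 h1))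
      · exact h3 b hb
  rw [e]
  refine MeasurableSet.iInter fun j => MeasurableSet.union measurableSet_Ico.compl
    (MeasurableSet.biInter (Set.to_countable _) fun b _ => Gd_meas _ _ _ _ _)

lemma PP_mono {x y : ℝ} (h : x ≤ y) : PP x ⊆ PP y :=
  filter_subset_filter _ (Icc_subset_Icc le_rfl (Nat.floor_le_floor h))

/-- the sum of the reciprocals over a short range -/
lemma tail_sum : ∃ C : ℝ, 0 ≤ C ∧ ∀ δ : ℝ, 0 < δ → ∀ᶠ j : ℕ in atTop, ∀ b : ℕ, b < 4 →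
    ∑ p ∈ PP ((2:ℝ) ^ (δ * j)) \ PP ((2:ℝ) ^ (δ * ((j:ℝ) - b))), (1:ℝ) / p ≤ C := by
  obtain ⟨C, hC0, hC⟩ := Pr_bound
  refine ⟨2 * C + 2, by positivity, fun δ hδ => ?_⟩
  have t1 : Tendsto (fun j : ℕ => (2:ℝ) ^ (δ * ((j:ℝ) - 3))) atTop atTop := by
    refine (tendsto_rpow_atTop_of_base_gt_one 2 (by norm_num)).comp ?_
    refine Tendsto.const_mul_atTop hδ ?_
    exact tendsto_atTop_add_const_right _ (-3) tendsto_natCast_atTop_atTop
  filter_upwards [t1.eventually_ge_atTop 3, eventually_ge_atTop 4] with j hj hj4 b hb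
  have hj4' : (4:ℝ) ≤ j := by exact_mod_cast hj4
  have hb' : (b:ℝ) ≤ 3 := by exact_mod_cast (by omega : b ≤ 3)
  have hb0 : (0:ℝ) ≤ b := Nat.cast_nonneg b
  set x := (2:ℝ) ^ (δ * j) with hx
  set y := (2:ℝ) ^ (δ * ((j:ℝ) - b)) with hy
  have hyx : y ≤ x := Real.rpow_le_rpow_of_exponent_le (by norm_num) (by nlinarith)
  have hy3 : 3 ≤ y := hj.trans (Real.rpow_le_rpow_of_exponent_le (by norm_num) (by nlinarith))
  have e : ∑ p ∈ PP x \ PP y, (1:ℝ) / p = Pr x - Pr y := by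
    have := Finset.sum_sdiff (f := fun p : ℕ => (1:ℝ) / p) (PP_mono hyx)
    have e1 : Pr x = ∑ p ∈ PP x, (1:ℝ) / p := rfl
    have e2 : Pr y = ∑ p ∈ PP y, (1:ℝ) / p := rfl
    rw [e1, e2]; linarith
  rw [e]
  have c1 := (abs_le.mp (hC x (hy3.trans hyx))).2
  have c2 := (abs_le.mp (hC y hy3)).1
  have l2 : 0 < Real.log 2 := Real.log_pos (by norm_num)
  have lx : Real.log x = δ * j * Real.log 2 := Real.log_rpow (by norm_num) _
  have ly : Real.log y = δ * ((j:ℝ) - b) * Real.log 2 := Real.log_rpow (by norm_num) _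
  have hjb : 1 ≤ (j:ℝ) - b := by linarith
  have h3 : Real.log (Real.log x) - Real.log (Real.log y) ≤ 2 := by
    rw [← Real.log_div (by rw [lx]; positivity) (by rw [ly]; positivity), lx, ly]
    have e3 : δ * j * Real.log 2 / (δ * ((j:ℝ) - b) * Real.log 2) = j / ((j:ℝ) - b) := by
      field_simp
    rw [e3]
    have h4 : (j:ℝ) / ((j:ℝ) - b) ≤ 4 := by
      rw [div_le_iff₀ (by linarith)]
      nlinarith
    have h5 : Real.log ((j:ℝ) / ((j:ℝ) - b)) ≤ Real.log 4 := Real.log_le_log (by positivity) h4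
    have h6 : Real.log 4 = 2 * Real.log 2 := by
      rw [show (4:ℝ) = 2 ^ 2 by norm_num, Real.log_pow]; norm_num
    have := Real.log_two_lt_d9
    linarith
  linarith

/-- the exceptional set is small -/
theorem SG_small {c : ℝ} {J : ℝ → ℕ} (hJ : ∀ y, 144 ≤ y → Rg c (J y) (II y) (bb y)) {Rs : ℕ} (hRs : 1 ≤ Rs)
    (hc : 2 * c ≤ 2 * Rs) {R : ℝ} (hR : 0 < R) {δ : ℝ} (hδ : 0 < δ) (hδR : 16 * (Rs + 1) * δ ≤ 1)
    {Ct : ℝ} (hCt : ∀ᶠ j : ℕ in atTop, ∀ b : ℕ, b < 4 →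
      ∑ p ∈ PP ((2:ℝ) ^ (δ * j)) \ PP ((2:ℝ) ^ (δ * ((j:ℝ) - b))), (1:ℝ) / p ≤ Ct) :
    ∀ᶠ T : ℝ in atTop, ∀ H : ℝ, T ^ (1 / 2 : ℝ) ≤ H → H ≤ T →
      volume.real (Set.Icc T (T + H) ∩ (SG J Rs R δ)ᶜ) ≤ H * (22 * (1 / 4) ^ Rs + 16 * Ct / R ^ 2) := by
  obtain ⟨j₁, hj₁⟩ := eventually_atTop.mp hCt
  have t1 : Tendsto (fun T : ℝ => T ^ (1 / 4 : ℝ)) atTop atTop := tendsto_rpow_atTop (by norm_num)
  have t2 : Tendsto (fun T : ℝ => (T / 16) ^ δ) atTop atTop :=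
    (tendsto_rpow_atTop hδ).comp (tendsto_id.atTop_div_const (by norm_num))
  filter_upwards [eventually_ge_atTop ((2:ℝ) ^ (j₁ + 1)), eventually_ge_atTop (16:ℝ), t1.eventually_ge_atTop 4,
    t2.eventually_ge_atTop 144] with T hTj hT16 hT4 hT144 H hH1 hH2
  have hT0 : 0 < T := by linarith
  have hH0 : 0 ≤ H := le_trans (by positivity) hH1
  obtain ⟨j₀, hj0, hj0'⟩ := exists_nat_pow_near (by linarith : (1:ℝ) ≤ T) (by norm_num : (1:ℝ) < 2)
  have hj01 : j₁ ≤ j₀ := by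
    by_contra hlt
    have h1 : (2:ℝ) ^ (j₀ + 1) ≤ 2 ^ (j₁ + 1) := pow_le_pow_right₀ (by norm_num) (by omega)
    linarith
  have hR1 : (1:ℝ) ≤ Rs := by exact_mod_cast hRs
  -- the scales
  have scale : ∀ a < 2, ∀ b < 4, 144 ≤ (2:ℝ) ^ (δ * (((j₀ + a : ℕ) : ℝ) - (b:ℕ))) ∧
      2 * Real.exp (4 * (Rs + 1) * Real.log ((2:ℝ) ^ (δ * (((j₀ + a : ℕ) : ℝ) - (b:ℕ))))) ≤ H ∧
      1 ≤ (2:ℝ) ^ (δ * ((j₀ + a : ℕ) : ℝ)) ∧ 2 * ((2:ℝ) ^ (δ * ((j₀ + a : ℕ) : ℝ))) ^ 2 ≤ H := by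
    intro a ha b hb
    have ha' : (a:ℝ) ≤ 1 := by exact_mod_cast (by omega : a ≤ 1)
    have ha0 : (0:ℝ) ≤ a := Nat.cast_nonneg a
    have hb' : (b:ℝ) ≤ 3 := by exact_mod_cast (by omega : b ≤ 3)
    have hb0 : (0:ℝ) ≤ b := Nat.cast_nonneg b
    have h2T : (2:ℝ) ^ (((j₀ + a : ℕ) : ℝ)) ≤ 2 * T := by
      rw [Real.rpow_natCast]
      calc (2:ℝ) ^ (j₀ + a) ≤ 2 ^ (j₀ + 1) := pow_le_pow_right₀ (by norm_num) (by omega)
        _ = 2 * 2 ^ j₀ := by rw [pow_succ]; ring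
        _ ≤ _ := by linarith
    have hTlow : T / 16 ≤ (2:ℝ) ^ (((j₀ + a : ℕ) : ℝ) - b) := by
      have h1 : (2:ℝ) ^ (((j₀ + 1 : ℕ) : ℝ) - 4) ≤ (2:ℝ) ^ (((j₀ + a : ℕ) : ℝ) - b) := by
        refine Real.rpow_le_rpow_of_exponent_le (by norm_num) ?_
        push_cast
        linarith
      rw [Real.rpow_sub (by norm_num), Real.rpow_natCast] at h1
      have e4 : (2:ℝ) ^ (4:ℝ) = 16 := by
        rw [show (4:ℝ) = ((4:ℕ) : ℝ) by norm_num, Real.rpow_natCast]; norm_num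
      rw [e4] at h1
      have : T / 16 ≤ 2 ^ (j₀ + 1) / 16 := by gcongr
      linarith
    have hδ1 : 32 * δ ≤ 1 := by nlinarith
    -- the upper bound
    have hup : (2:ℝ) ^ (δ * ((j₀ + a : ℕ) : ℝ)) ≤ (2 * T) ^ δ := by
      rw [mul_comm, Real.rpow_mul (by norm_num)]
      exact Real.rpow_le_rpow (by positivity) h2T hδ.le
    have h2T1 : 1 ≤ 2 * T := by linarith
    have hq : 2 * (2 * T) ^ (1 / 4 : ℝ) ≤ H := by
      refine le_trans ?_ hH1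
      have e1 : T ^ (1 / 2 : ℝ) = T ^ (1 / 4 : ℝ) * T ^ (1 / 4 : ℝ) := by
        rw [← Real.rpow_add hT0]; norm_num
      have e2 : (2 * T) ^ (1 / 4 : ℝ) ≤ 2 * T ^ (1 / 4 : ℝ) := by
        rw [Real.mul_rpow (by norm_num) hT0.le]
        refine mul_le_mul_of_nonneg_right ?_ (by positivity)
        calc (2:ℝ) ^ (1 / 4 : ℝ) ≤ 2 ^ (1:ℝ) := Real.rpow_le_rpow_of_exponent_le (by norm_num) (by norm_num)
          _ = 2 := Real.rpow_one _
      rw [e1]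
      nlinarith
    refine ⟨?_, ?_, ?_, ?_⟩
    · rw [mul_comm, Real.rpow_mul (by norm_num)]
      exact hT144.trans (Real.rpow_le_rpow (by positivity) hTlow hδ.le)
    · refine le_trans ?_ hq
      refine mul_le_mul_of_nonneg_left ?_ (by norm_num)
      have h1 : (2:ℝ) ^ (δ * (((j₀ + a : ℕ) : ℝ) - (b:ℕ))) ≤ (2 * T) ^ δ :=
        (Real.rpow_le_rpow_of_exponent_le (by norm_num) (by nlinarith)).trans hup
      have h2 := Real.log_le_log (by positivity) h1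
      rw [Real.log_rpow (by linarith) (y := δ)] at h2
      rw [Real.rpow_def_of_pos (by linarith : 0 < 2 * T)]
      refine Real.exp_le_exp.mpr ?_
      have hl : 0 ≤ Real.log (2 * T) := Real.log_nonneg h2T1
      calc 4 * ((Rs:ℝ) + 1) * Real.log ((2:ℝ) ^ (δ * (((j₀ + a : ℕ) : ℝ) - (b:ℕ))))
          ≤ 4 * ((Rs:ℝ) + 1) * (δ * Real.log (2 * T)) := mul_le_mul_of_nonneg_left h2 (by positivity)
        _ = (16 * (Rs + 1) * δ) * (Real.log (2 * T) * (1 / 4)) := by ring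
        _ ≤ 1 * (Real.log (2 * T) * (1 / 4)) := mul_le_mul_of_nonneg_right hδR (by positivity)
        _ = _ := one_mul _
    · exact Real.one_le_rpow (by norm_num) (by positivity)
    · refine le_trans ?_ hq
      refine mul_le_mul_of_nonneg_left ?_ (by norm_num)
      calc ((2:ℝ) ^ (δ * ((j₀ + a : ℕ) : ℝ))) ^ 2 ≤ ((2 * T) ^ δ) ^ 2 := pow_le_pow_left₀ (by positivity) hup 2
        _ = (2 * T) ^ (δ * 2) := by rw [← Real.rpow_natCast, ← Real.rpow_mul (by linarith)]; norm_num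
        _ ≤ _ := Real.rpow_le_rpow_of_exponent_le h2T1 (by linarith)
  -- the union
  set Bad : ℕ × ℕ → Set ℝ := fun q =>
    (⋃ i ∈ range (J ((2:ℝ) ^ (δ * (((j₀ + q.1 : ℕ) : ℝ) - (q.2:ℕ))))),
      Set.Icc T (T + H) ∩ {t | 2 * ((Rs:ℝ) + i) < ‖Z ((2:ℝ) ^ (δ * (((j₀ + q.1 : ℕ) : ℝ) - (q.2:ℕ)))) 1 i t‖}) ∪
    (Set.Icc T (T + H) ∩ {t | R < ‖TL ((2:ℝ) ^ (δ * (((j₀ + q.1 : ℕ) : ℝ) - (q.2:ℕ))))
      ((2:ℝ) ^ (δ * ((j₀ + q.1 : ℕ) : ℝ))) t‖}) with hBad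
  have hsub : Set.Icc T (T + H) ∩ (SG J Rs R δ)ᶜ ⊆ ⋃ q ∈ range 2 ×ˢ range 4, Bad q := by
    rintro s ⟨hs, hsG⟩
    simp only [SG, Set.mem_compl_iff, Set.mem_ofPred_eq, not_forall] at hsG
    obtain ⟨j, h1, h2, b, hb, hG⟩ := hsG
    have hjj : j₀ ≤ j := by
      by_contra hlt
      have h3 : (2:ℝ) ^ (j + 1) ≤ 2 ^ j₀ := pow_le_pow_right₀ (by norm_num) (by omega)
      linarith [hs.1]
    have hjj2 : j < j₀ + 2 := by
      by_contra hlt
      have h3 : (2:ℝ) ^ (j₀ + 2) ≤ 2 ^ j := pow_le_pow_right₀ (by norm_num) (by omega)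
      have h4 : (2:ℝ) ^ (j₀ + 2) = 2 * 2 ^ (j₀ + 1) := by rw [pow_succ (2:ℝ) (j₀ + 1)]; ring
      linarith [hs.2]
    obtain ⟨a, rfl⟩ := Nat.exists_eq_add_of_le hjj
    rw [Set.mem_iUnion₂]
    refine ⟨(a, b), ?_, ?_⟩
    · rw [mem_product, mem_range, mem_range]
      exact ⟨by show a < 2; omega, hb⟩
    · simp only [hBad]
      unfold Gd at hG
      rw [not_and_or] at hG
      rcases hG with hG | hG
      · left
        push Not at hG
        obtain ⟨i, hi, hi2⟩ := hG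
        rw [Set.mem_iUnion₂]
        exact ⟨i, mem_range.mpr hi, hs, hi2⟩
      · right
        exact ⟨hs, not_le.mp hG⟩
  have hfin : ∀ A : Set ℝ, A ⊆ Set.Icc T (T + H) → volume A ≠ ⊤ := fun A hA =>
    measure_ne_top_of_subset hA (by rw [Real.volume_Icc]; exact ENNReal.ofReal_ne_top)
  have hBsub : ∀ q, Bad q ⊆ Set.Icc T (T + H) := by
    intro q
    simp only [hBad]
    exact Set.union_subset (Set.iUnion₂_subset fun i _ => Set.inter_subset_left) Set.inter_subset_left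
  have h1 : volume.real (Set.Icc T (T + H) ∩ (SG J Rs R δ)ᶜ) ≤ ∑ q ∈ range 2 ×ˢ range 4, volume.real (Bad q) :=
    (measureReal_mono hsub (hfin _ (Set.iUnion₂_subset fun q _ => hBsub q))).trans
      (measureReal_biUnion_finset_le _ _)
  have h2 : ∀ q ∈ range 2 ×ˢ range 4, volume.real (Bad q) ≤
      8 / 3 * H * (1 / 4) ^ Rs + 2 * H * Ct / R ^ 2 := by
    rintro ⟨a, b⟩ hq
    rw [mem_product, mem_range, mem_range] at hq
    have ha : a < 2 := hq.1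
    have hb : b < 4 := hq.2
    obtain ⟨s1, s2, s3, s4⟩ := scale a ha b hb
    simp only [hBad]
    refine (measureReal_union_le _ _).trans (add_le_add ?_ ?_)
    · refine (measureReal_biUnion_finset_le _ _).trans ?_
      have h3 : ∀ i ∈ range (J ((2:ℝ) ^ (δ * (((j₀ + a : ℕ) : ℝ) - (b:ℕ))))), volume.real
          (Set.Icc T (T + H) ∩ {t | 2 * ((Rs:ℝ) + i) < ‖Z ((2:ℝ) ^ (δ * (((j₀ + a : ℕ) : ℝ) - (b:ℕ)))) 1 i t‖}) ≤
          2 * H * (1 / 4) ^ Rs * (1 / 4) ^ i := by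
        intro i hi
        refine (bad_block (hJ _ s1) (by linarith) hRs hc (mem_range.mp hi) T s2).trans (le_of_eq ?_)
        rw [pow_add]; ring
      refine (sum_le_sum h3).trans ?_
      rw [← mul_sum]
      have h4 : ∑ i ∈ range (J ((2:ℝ) ^ (δ * (((j₀ + a : ℕ) : ℝ) - (b:ℕ))))), (1 / 4 : ℝ) ^ i ≤ 4 / 3 := by
        rw [geom_sum_eq (by norm_num)]
        have : 0 < (1 / 4 : ℝ) ^ (J ((2:ℝ) ^ (δ * (((j₀ + a : ℕ) : ℝ) - (b:ℕ))))) := by positivity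
        rw [div_le_iff_of_neg (by norm_num)]
        linarith
      calc 2 * H * (1 / 4) ^ Rs * ∑ i ∈ range (J ((2:ℝ) ^ (δ * (((j₀ + a : ℕ) : ℝ) - (b:ℕ))))), (1 / 4 : ℝ) ^ i
          ≤ 2 * H * (1 / 4) ^ Rs * (4 / 3) := mul_le_mul_of_nonneg_left h4 (by positivity)
        _ = _ := by ring
    · refine ((bad_tail s3 hR T s4).2).trans ?_
      have h5 := hj₁ (j₀ + a) (by omega) b hb
      have h6 := mul_le_mul_of_nonneg_left h5 (by positivity : (0:ℝ) ≤ 2 * H)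
      exact div_le_div_of_nonneg_right h6 (by positivity)
  refine (h1.trans (sum_le_sum h2)).trans ?_
  rw [sum_const, card_product, card_range, card_range]
  have : 0 ≤ H * (1 / 4 : ℝ) ^ Rs := by positivity
  have e : ((2 * 4 : ℕ) : ℝ) = 8 := by norm_num
  rw [nsmul_eq_mul, e]
  have e2 : 8 * (8 / 3 * H * (1 / 4) ^ Rs + 2 * H * Ct / R ^ 2) =
      64 / 3 * (H * (1 / 4) ^ Rs) + H * (16 * Ct / R ^ 2) := by ring
  rw [e2]
  nlinarith

end Pool.Agent.V11104.SM
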