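import Mathlib
import Pool.Agent.V11104.SM.Set

set_option autoImplicit false

/-!
Shifted moments: the pointwise bound and the upper bound.
-/

namespace Pool.Agent.V11104.SM

open Finset Filter Topology MeasureTheory
open Pool.Agent.W184.NZ (bb II vI Rg mem_II bb_pos log_bb bb_le II_disj PF mem_PF sum_II)

/-- the real part of the sum of `p^(-1/2-is)` over the primes `p ≤ y` -/
noncomputable def PS (y s : ℝ) : ℝ := (∑ p ∈ PP y, (p : ℂ) ^ (-(1 / 2 + s * Complex.I))).re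

lemma re_le_one {p : ℕ} (hp : p.Prime) (t : ℝ) : |((p : ℂ) ^ (-(1 / 2 + t * Complex.I))).re| ≤ 1 := by
  refine (Complex.abs_re_le_norm _).trans ?_
  have hp1 : (1:ℝ) ≤ p := by exact_mod_cast hp.one_lt.le
  rw [Complex.norm_natCast_cpow_of_pos hp.pos]
  have : (-(1 / 2 + t * Complex.I) : ℂ).re = -(1 / 2) := by simp
  rw [this]
  exact Real.rpow_le_one_of_one_le_of_nonpos hp1 (by norm_num)

/-- the blocks cover all primes but the small ones -/
lemma blocks {y : ℝ} (hy : 144 ≤ y) {J : ℕ} (hJ : bb y J < 144) (s : ℝ) :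
    |(∑ i ∈ range J, (Z y 1 i s).re) - PS y s| ≤ 144 := by
  have hy1 : 1 ≤ y := by linarith
  have hy0 : 0 ≤ y := by linarith
  set F : ℕ → ℝ := fun p => ((p : ℂ) ^ (-(1 / 2 + s * Complex.I))).re with hF
  have e1 : ∑ i ∈ range J, (Z y 1 i s).re = ∑ i ∈ range J, ∑ p ∈ II y i, F p := by
    refine sum_congr rfl fun i _ => ?_
    unfold Z
    rw [Complex.re_sum]
    refine sum_congr rfl fun p _ => ?_
    simp only [hF, Pi.one_apply, one_mul]
  rw [sum_II hy1 F J] at e1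
  have e2 : PS y s = ∑ p ∈ PP y, F p := by
    unfold PS
    rw [Complex.re_sum]
  have hBA : PF y (bb y J) ⊆ PP y := by
    intro p hp
    rw [mem_PF hy0] at hp
    exact (mem_PP hy0).mpr ⟨hp.1, hp.2.2.2⟩
  rw [e1, e2, ← sum_sdiff hBA, abs_sub_comm, add_sub_cancel_right]
  have hsub : PP y \ PF y (bb y J) ⊆ range 144 := by
    intro p hp
    rw [Finset.mem_sdiff, mem_PP hy0, mem_PF hy0] at hp
    rw [mem_range]
    by_contra h5
    apply hp.2
    have h6 : (144:ℝ) ≤ p := by exact_mod_cast (by omega : 144 ≤ p)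
    exact ⟨hp.1.1, by omega, by linarith, hp.1.2⟩
  calc |∑ p ∈ PP y \ PF y (bb y J), F p| ≤ ∑ p ∈ PP y \ PF y (bb y J), |F p| := abs_sum_le_sum_abs _ _
    _ ≤ ∑ p ∈ PP y \ PF y (bb y J), (1:ℝ) := by
        refine sum_le_sum fun p hp => re_le_one ?_ s
        rw [Finset.mem_sdiff, mem_PP hy0] at hp
        exact hp.1.1
    _ ≤ ∑ p ∈ range 144, (1:ℝ) := sum_le_sum_of_subset_of_nonneg hsub fun _ _ _ => zero_le_one
    _ = 144 := by simp

lemma tail_re {x y : ℝ} (hxy : y ≤ x) (s : ℝ) : PS x s - PS y s = (TL y x s).re := by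
  unfold PS TL
  rw [← Complex.sub_re, ← Finset.sum_sdiff (PP_mono hxy)]
  congr 1
  ring

/-- at the points of `SG` -/
lemma at_SG {J : ℝ → ℕ} {Rs : ℕ} {R δ : ℝ} (hδ : 0 ≤ δ) {s : ℝ} (hs : s ∈ SG J Rs R δ) {j : ℕ}
    (h1 : (2:ℝ) ^ j ≤ s) (h2 : s < 2 ^ (j + 1)) {b : ℕ} (hb : b < 4) {y : ℝ}
    (hy : y = (2:ℝ) ^ (δ * ((j:ℝ) - b))) (hy144 : 144 ≤ y) (hJ : bb y (J y) < 144) :
    (∀ i < J y, ‖Z y 1 i s‖ ≤ 2 * ((Rs:ℝ) + i)) ∧
      |PS ((2:ℝ) ^ (δ * j)) s - ∑ i ∈ range (J y), (Z y 1 i s).re| ≤ R + 144 := by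
  obtain ⟨g1, g2⟩ := hs j h1 h2 b hb
  rw [← hy] at g1 g2
  refine ⟨g1, ?_⟩
  have hb0 : (0:ℝ) ≤ b := Nat.cast_nonneg b
  have hyx : y ≤ (2:ℝ) ^ (δ * j) := by
    rw [hy]
    exact Real.rpow_le_rpow_of_exponent_le (by norm_num) (by nlinarith)
  have h3 := tail_re hyx s
  have h4 := (Complex.abs_re_le_norm _).trans g2
  rw [← h3] at h4
  have h5 := blocks hy144 hJ s
  rw [abs_le] at h4 h5 ⊢
  constructor <;> linarith [h4.1, h4.2, h5.1, h5.2]

lemma chi_add (t h : ℝ) {p : ℕ} (hp : 0 < p) : chi (t + h) p = chi t p * chi h p := by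
  rw [chi_exp _ hp, chi_exp _ hp, chi_exp _ hp, ← Complex.exp_add]
  congr 1
  push_cast
  ring

/-- the twisting coefficients -/
noncomputable def cf {m : ℕ} (h k : Fin m → ℝ) (p : ℕ) : ℂ := ∑ l, (k l : ℂ) * chi (h l) p

lemma Z_cf {m : ℕ} (h k : Fin m → ℝ) (y : ℝ) (i : ℕ) (t : ℝ) :
    Z y (cf h k) i t = ∑ l, (k l : ℂ) * Z y 1 i (t + h l) := by
  simp_rw [Z_chi, Finset.mul_sum]
  rw [Finset.sum_comm]
  refine sum_congr rfl fun p hp => ?_
  unfold cf
  rw [Finset.sum_mul, Finset.sum_mul]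
  refine sum_congr rfl fun l _ => ?_
  rw [chi_add t (h l) (mem_II.mp hp).1.pos]
  simp only [Pi.one_apply, one_mul]
  ring

lemma cf_sq {m : ℕ} (h k : Fin m → ℝ) {p : ℕ} (hp : p.Prime) :
    ‖cf h k p‖ ^ 2 / p = ∑ l, ∑ l', k l * k l' * ((p : ℂ) ^ (-(1 + ((h l - h l' : ℝ) : ℂ) * Complex.I))).re := by
  have hp0 : (0:ℝ) < p := by exact_mod_cast hp.pos
  have e1 : ((‖cf h k p‖ ^ 2 : ℝ) : ℂ) = ∑ l, ∑ l', ((k l * k l' : ℝ) : ℂ) * chi (h l - h l') p := by
    have : ((‖cf h k p‖ ^ 2 : ℝ) : ℂ) = cf h k p * (starRingEnd ℂ) (cf h k p) := by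
      rw [Complex.mul_conj']; push_cast; rfl
    rw [this]
    unfold cf
    rw [map_sum, Finset.sum_mul_sum]
    refine sum_congr rfl fun l _ => sum_congr rfl fun l' _ => ?_
    rw [map_mul, Complex.conj_ofReal]
    have h1 : chi (h l - h l') p = chi (h l) p * (starRingEnd ℂ) (chi (h l') p) := by
      rw [chi_exp _ hp.pos, chi_exp _ hp.pos, chi_exp _ hp.pos, ← Complex.exp_conj, ← Complex.exp_add]
      congr 1
      simp only [map_mul, map_neg, Complex.conj_ofReal, Complex.conj_I]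
      push_cast
      ring
    rw [h1]
    push_cast
    ring
  have e2 : ‖cf h k p‖ ^ 2 = ∑ l, ∑ l', k l * k l' * (chi (h l - h l') p).re := by
    have := congrArg Complex.re e1
    rw [Complex.ofReal_re, Complex.re_sum] at this
    rw [this]
    refine sum_congr rfl fun l _ => ?_
    rw [Complex.re_sum]
    refine sum_congr rfl fun l' _ => ?_
    rw [Complex.re_ofReal_mul]
  rw [e2, Finset.sum_div]
  refine sum_congr rfl fun l _ => ?_
  rw [Finset.sum_div]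
  refine sum_congr rfl fun l' _ => ?_
  have e3 : (p : ℂ) ^ (-(1 + ((h l - h l' : ℝ) : ℂ) * Complex.I)) = (((p:ℝ)⁻¹ : ℝ) : ℂ) * chi (h l - h l') p := by
    rw [neg_add, Complex.cpow_add _ _ (by exact_mod_cast hp.ne_zero), Complex.cpow_neg_one, chi_apply]
    push_cast
    rfl
  rw [e3, Complex.re_ofReal_mul]
  ring

lemma zeta_cont : Continuous fun t : ℝ => riemannZeta (1 / 2 + t * Complex.I) := by
  rw [continuous_iff_continuousAt]
  intro t
  have h1 : (1 / 2 + t * Complex.I : ℂ) ≠ 1 := by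
    intro h
    have := congrArg Complex.re h
    simp at this
  have h2 := (differentiableAt_riemannZeta h1).continuousAt
  have h3 : ContinuousAt (fun t : ℝ => (1 / 2 + t * Complex.I : ℂ)) t := by fun_prop
  exact ContinuousAt.comp (f := fun t : ℝ => (1 / 2 + t * Complex.I : ℂ)) h2 h3

/-- the product of the powers of zeta -/
noncomputable def FF {m : ℕ} (h k : Fin m → ℝ) (t : ℝ) : ℝ :=
  ∏ l, ‖riemannZeta (1 / 2 + ((t + h l : ℝ) : ℂ) * Complex.I)‖ ^ (2 * k l)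

lemma FF_meas {m : ℕ} (h k : Fin m → ℝ) : Measurable (FF h k) := by
  unfold FF
  refine Finset.measurable_prod _ fun l _ => ?_
  have h1 : Continuous fun t : ℝ => ‖riemannZeta (1 / 2 + ((t + h l : ℝ) : ℂ) * Complex.I)‖ :=
    (zeta_cont.comp (continuous_id.add continuous_const)).norm
  exact h1.measurable.pow_const _

lemma FF_nonneg {m : ℕ} (h k : Fin m → ℝ) (t : ℝ) : 0 ≤ FF h k t :=
  Finset.prod_nonneg fun _ _ => Real.rpow_nonneg (norm_nonneg _) _

/-- **The upper bound for the shifted moments.** -/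
theorem upper {c : ℝ} {J : ℝ → ℕ} (hJ : ∀ y, 144 ≤ y → Rg c (J y) (II y) (bb y) ∧ bb y (J y) < 144)
    {m n Rs : ℕ} (hn : 1 ≤ n) (hRs : 1 ≤ Rs) {B θ R δ W : ℝ} (hmB : m * B ≤ n)
    (hR : 0 < R) (hδ : 0 < δ) (hδ1 : δ ≤ 1) (hδθ : 108 * n * (Rs + 1) * δ ≤ θ) (hW : 0 ≤ W) {E : Set ℝ}
    (hEm : MeasurableSet E)
    (hE : ∀ j : ℕ, ∀ t ∈ E, (2 : ℝ) ^ j ≤ t → t < (2 : ℝ) ^ (j + 1) → riemannZeta (1 / 2 + t * Complex.I) ≠ 0 ∧
      |Real.log ‖riemannZeta (1 / 2 + t * Complex.I)‖ - PS (2 ^ (δ * j)) t| ≤ W) (hES : E ⊆ SG J Rs R δ) :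
    ∃ C : ℝ, 0 < C ∧ ∀ᶠ T : ℝ in atTop, ∀ H : ℝ, T ^ θ ≤ H → H ≤ T → ∀ h k : Fin m → ℝ,
      (∀ l, |h l| ≤ T / 2) → (∀ l, |k l| ≤ B) →
      IntegrableOn (FF h k) {t | t ∈ Set.Icc T (T + H) ∧ ∀ l, t + h l ∈ E} ∧
      ∫ t in {t | t ∈ Set.Icc T (T + H) ∧ ∀ l, t + h l ∈ E}, FF h k t ≤ C * H *
        ∏ l, ∏ l', ‖riemannZeta (1 + 1 / Real.log T + ((h l - h l' : ℝ) : ℂ) * Complex.I)‖ ^ (k l * k l') := by
  obtain ⟨C₄, hC₄, heul⟩ := eul (δ / 2) (by positivity)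
  set C₁ : ℝ := Real.exp (2 * n * (W + (R + 144))) with hC₁
  refine ⟨C₁ * 4 * 3 * Real.exp ((n:ℝ) ^ 2 * C₄), by positivity, ?_⟩
  have t2 : Tendsto (fun T : ℝ => (T / 4) ^ δ) atTop atTop :=
    (tendsto_rpow_atTop hδ).comp (tendsto_id.atTop_div_const (by norm_num))
  filter_upwards [heul, eventually_ge_atTop (16:ℝ), t2.eventually_ge_atTop 144,
    Real.tendsto_log_atTop.eventually_gt_atTop 0] with T hTe hT16 hT144 hlT H hH1 hH2 h k hh hk
  have hT0 : 0 < T := by linarith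
  have hT1 : 1 ≤ T := by linarith
  have hH0 : 0 ≤ H := le_trans (by positivity) hH1
  have hn1 : (1:ℝ) ≤ n := by exact_mod_cast hn
  obtain ⟨j₀, hj0, hj0'⟩ := exists_nat_pow_near hT1 (by norm_num : (1:ℝ) < 2)
  -- the scale
  set y : ℝ := (2:ℝ) ^ (δ * ((j₀:ℝ) - 1)) with hy
  have hy2 : (2:ℝ) ^ ((j₀:ℝ) - 1) ≤ T ∧ T / 4 ≤ (2:ℝ) ^ ((j₀:ℝ) - 1) := by
    rw [Real.rpow_sub (by norm_num), Real.rpow_one, Real.rpow_natCast]
    have e : (2:ℝ) ^ (j₀ + 1) = 2 * 2 ^ j₀ := by rw [pow_succ]; ring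
    constructor
    · linarith
    · linarith
  have hyT : y ≤ T ^ δ := by
    rw [hy, mul_comm, Real.rpow_mul (by norm_num)]
    exact Real.rpow_le_rpow (by positivity) hy2.1 hδ.le
  have hyT' : (T / 4) ^ δ ≤ y := by
    rw [hy, mul_comm, Real.rpow_mul (by norm_num)]
    exact Real.rpow_le_rpow (by positivity) hy2.2 hδ.le
  have hy144 : 144 ≤ y := hT144.trans hyT'
  have hy1 : 1 ≤ y := by linarith
  have hy0 : 0 ≤ y := by linarith
  obtain ⟨hRg, hbJ⟩ := hJ y hy144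
  have hyT1 : y ≤ T := hyT.trans (by
    calc T ^ δ ≤ T ^ (1:ℝ) := Real.rpow_le_rpow_of_exponent_le hT1 hδ1
      _ = T := Real.rpow_one T)
  have hyT2 : T ^ (δ / 2) ≤ y := by
    refine le_trans ?_ hyT'
    have e : T ^ (δ / 2) = (T ^ (1 / 2 : ℝ)) ^ δ := by
      rw [← Real.rpow_mul hT0.le]; congr 1; ring
    rw [e]
    refine Real.rpow_le_rpow (by positivity) ?_ hδ.le
    rw [← Real.sqrt_eq_rpow, Real.sqrt_le_left (by positivity)]
    nlinarith
  -- the Dirichlet polynomial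
  set D : ℝ → ℂ := fun t => ∏ i ∈ range (J y), TE (Kd n Rs i) (Z y (cf h k) i t) with hD
  obtain ⟨hDc, hDm⟩ := mean_D hRg hy1 n Rs (cf h k) T hH0
  -- the pointwise bound
  have hsumk : ∑ l, |k l| ≤ n := by
    calc ∑ l, |k l| ≤ ∑ _l : Fin m, B := sum_le_sum fun l _ => hk l
      _ = m * B := by simp
      _ ≤ n := hmB
  have point : ∀ t ∈ Set.Icc T (T + H), (∀ l, t + h l ∈ E) → FF h k t ≤ C₁ * 4 * ‖D t‖ ^ 2 := by
    intro t ht htE
    have data : ∀ l, riemannZeta (1 / 2 + ((t + h l : ℝ) : ℂ) * Complex.I) ≠ 0 ∧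
        (∀ i < J y, ‖Z y 1 i (t + h l)‖ ≤ 2 * ((Rs:ℝ) + i)) ∧
        |Real.log ‖riemannZeta (1 / 2 + ((t + h l : ℝ) : ℂ) * Complex.I)‖ -
          ∑ i ∈ range (J y), (Z y 1 i (t + h l)).re| ≤ W + (R + 144) := by
      intro l
      have hl := abs_le.mp (hh l)
      have hs1 : T / 2 ≤ t + h l := by linarith [ht.1]
      have hs2 : t + h l ≤ 5 / 2 * T := by linarith [ht.2]
      obtain ⟨j, hj, hj'⟩ := exists_nat_pow_near (by linarith : (1:ℝ) ≤ t + h l) (by norm_num : (1:ℝ) < 2)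
      have hjl : j₀ ≤ j + 1 := by
        by_contra hlt
        have h3 : (2:ℝ) ^ (j + 2) ≤ 2 ^ j₀ := pow_le_pow_right₀ (by norm_num) (by omega)
        have h4 : (2:ℝ) ^ (j + 2) = 2 * 2 ^ (j + 1) := by rw [pow_succ (2:ℝ) (j + 1)]; ring
        linarith
      have hju : j < j₀ + 3 := by
        by_contra hlt
        have h3 : (2:ℝ) ^ (j₀ + 3) ≤ 2 ^ j := pow_le_pow_right₀ (by norm_num) (by omega)
        have h4 : (2:ℝ) ^ (j₀ + 3) = 4 * 2 ^ (j₀ + 1) := by rw [pow_add, pow_add]; ring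
        linarith
      obtain ⟨b, hb⟩ := Nat.exists_eq_add_of_le hjl
      have hb4 : b < 4 := by omega
      have hby : y = (2:ℝ) ^ (δ * ((j:ℝ) - b)) := by
        rw [hy]
        congr 2
        have : ((j + 1 : ℕ) : ℝ) = ((j₀ + b : ℕ) : ℝ) := by rw [hb]
        push_cast at this
        linarith
      obtain ⟨q1, q2⟩ := hE j (t + h l) (htE l) hj hj'
      obtain ⟨q3, q4⟩ := at_SG hδ.le (hES (htE l)) hj hj' hb4 hby hy144 hbJ
      refine ⟨q1, q3, ?_⟩
      have := abs_sub_le (Real.log ‖riemannZeta (1 / 2 + ((t + h l : ℝ) : ℂ) * Complex.I)‖)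
        (PS ((2:ℝ) ^ (δ * j)) (t + h l)) (∑ i ∈ range (J y), (Z y 1 i (t + h l)).re)
      linarith
    have hZ : ∀ i < J y, ‖Z y (cf h k) i t‖ ≤ n * (2 * (Rs + i)) := by
      intro i hi
      rw [Z_cf]
      calc ‖∑ l, (k l : ℂ) * Z y 1 i (t + h l)‖ ≤ ∑ l, |k l| * (2 * ((Rs:ℝ) + i)) := by
            refine norm_sum_le_of_le _ fun l _ => ?_
            rw [norm_mul, Complex.norm_real, Real.norm_eq_abs]
            exact mul_le_mul_of_nonneg_left ((data l).2.1 i hi) (abs_nonneg _)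
        _ = (∑ l, |k l|) * (2 * ((Rs:ℝ) + i)) := by rw [Finset.sum_mul]
        _ ≤ _ := mul_le_mul_of_nonneg_right hsumk (by positivity)
    have hmaj := majorant hn hRs hZ
    have e1 : ∑ i ∈ range (J y), (Z y (cf h k) i t).re =
        ∑ l, k l * ∑ i ∈ range (J y), (Z y 1 i (t + h l)).re := by
      simp_rw [Z_cf, Complex.re_sum, Complex.re_ofReal_mul, Finset.mul_sum]
      rw [Finset.sum_comm]
    have e2 : FF h k t = Real.exp (∑ l, 2 * k l *
        Real.log ‖riemannZeta (1 / 2 + ((t + h l : ℝ) : ℂ) * Complex.I)‖) := by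
      unfold FF
      rw [Real.exp_sum]
      refine prod_congr rfl fun l _ => ?_
      rw [Real.rpow_def_of_pos (norm_pos_iff.mpr (data l).1)]
      congr 1
      ring
    have e3 : ∑ l, 2 * k l * Real.log ‖riemannZeta (1 / 2 + ((t + h l : ℝ) : ℂ) * Complex.I)‖ ≤
        2 * n * (W + (R + 144)) + 2 * ∑ i ∈ range (J y), (Z y (cf h k) i t).re := by
      rw [e1, Finset.mul_sum]
      have h1 : ∀ l ∈ (univ : Finset (Fin m)),
          2 * k l * Real.log ‖riemannZeta (1 / 2 + ((t + h l : ℝ) : ℂ) * Complex.I)‖ ≤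
          2 * |k l| * (W + (R + 144)) + 2 * (k l * ∑ i ∈ range (J y), (Z y 1 i (t + h l)).re) := by
        intro l _
        have h2 := (data l).2.2
        have h3 : k l * (Real.log ‖riemannZeta (1 / 2 + ((t + h l : ℝ) : ℂ) * Complex.I)‖ -
            ∑ i ∈ range (J y), (Z y 1 i (t + h l)).re) ≤ |k l| * (W + (R + 144)) := by
          refine (le_abs_self _).trans ?_
          rw [abs_mul]
          exact mul_le_mul_of_nonneg_left h2 (abs_nonneg _)
        linarith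
      refine (sum_le_sum h1).trans ?_
      rw [sum_add_distrib]
      have h4 : ∑ l, 2 * |k l| * (W + (R + 144)) ≤ 2 * n * (W + (R + 144)) := by
        rw [← Finset.sum_mul, ← Finset.mul_sum]
        have : 0 ≤ W + (R + 144) := by positivity
        gcongr
      linarith
    rw [e2]
    refine (Real.exp_le_exp.mpr e3).trans ?_
    rw [Real.exp_add, ← hC₁, mul_assoc]
    refine mul_le_mul_of_nonneg_left ?_ (Real.exp_pos _).le
    have e4 : Real.exp (2 * ∑ i ∈ range (J y), (Z y (cf h k) i t).re) =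
        (Real.exp (∑ i ∈ range (J y), (Z y (cf h k) i t).re)) ^ 2 := by
      rw [← Real.exp_nat_mul]; norm_num
    rw [e4]
    calc (Real.exp (∑ i ∈ range (J y), (Z y (cf h k) i t).re)) ^ 2 ≤ (2 * ‖D t‖) ^ 2 :=
          pow_le_pow_left₀ (Real.exp_pos _).le hmaj 2
      _ = 4 * ‖D t‖ ^ 2 := by ring
  -- integration
  have hcD : Continuous fun t => C₁ * 4 * ‖D t‖ ^ 2 := by
    have : Continuous D := hDc
    fun_prop
  have hG : MeasurableSet {t | t ∈ Set.Icc T (T + H) ∧ ∀ l, t + h l ∈ E} := by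
    have e : {t | t ∈ Set.Icc T (T + H) ∧ ∀ l, t + h l ∈ E} =
        Set.Icc T (T + H) ∩ ⋂ l, (fun t => t + h l) ⁻¹' E := by
      ext t; simp
    rw [e]
    exact measurableSet_Icc.inter (MeasurableSet.iInter fun l => (measurable_id.add_const (h l)) hEm)
  have hGsub : {t | t ∈ Set.Icc T (T + H) ∧ ∀ l, t + h l ∈ E} ⊆ Set.Icc T (T + H) := fun t ht => ht.1
  have hiD : IntegrableOn (fun t => C₁ * 4 * ‖D t‖ ^ 2) (Set.Icc T (T + H)) := hcD.continuousOn.integrableOn_Icc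
  have hiF : IntegrableOn (FF h k) {t | t ∈ Set.Icc T (T + H) ∧ ∀ l, t + h l ∈ E} := by
    refine Integrable.mono' (hiD.mono_set hGsub) (FF_meas h k).aestronglyMeasurable ?_
    refine (ae_restrict_iff' hG).mpr (Filter.Eventually.of_forall fun t ht => ?_)
    rw [Real.norm_of_nonneg (FF_nonneg h k t)]
    exact point t ht.1 ht.2
  refine ⟨hiF, ?_⟩
  have i1 : ∫ t in {t | t ∈ Set.Icc T (T + H) ∧ ∀ l, t + h l ∈ E}, FF h k t ≤
      ∫ t in {t | t ∈ Set.Icc T (T + H) ∧ ∀ l, t + h l ∈ E}, C₁ * 4 * ‖D t‖ ^ 2 :=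
    setIntegral_mono_on hiF (hiD.mono_set hGsub) hG fun t ht => point t ht.1 ht.2
  have i2 : ∫ t in {t | t ∈ Set.Icc T (T + H) ∧ ∀ l, t + h l ∈ E}, C₁ * 4 * ‖D t‖ ^ 2 ≤
      ∫ t in Set.Icc T (T + H), C₁ * 4 * ‖D t‖ ^ 2 :=
    setIntegral_mono_set hiD (Filter.Eventually.of_forall fun t => by
      show (0:ℝ) ≤ C₁ * 4 * ‖D t‖ ^ 2
      positivity) hGsub.eventuallyLE
  have i3 : ∫ t in Set.Icc T (T + H), C₁ * 4 * ‖D t‖ ^ 2 = C₁ * 4 * ∫ t in T..(T + H), ‖D t‖ ^ 2 := by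
    rw [integral_const_mul, intervalIntegral.integral_of_le (by linarith), integral_Icc_eq_integral_Ioc]
  -- the length
  have hlen : (∏ i ∈ range (J y), (bb y i) ^ (Kd n Rs i)) ^ 2 ≤ H := by
    have h1 := len y hy1 n Rs (J y)
    have hb0 : 0 ≤ ∏ i ∈ range (J y), (bb y i) ^ (Kd n Rs i) := prod_nonneg fun i _ => by
      have := bb_pos y i
      positivity
    refine (pow_le_pow_left₀ hb0 h1 2).trans (le_trans ?_ hH1)
    rw [← Real.exp_nat_mul, Real.rpow_def_of_pos hT0]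
    refine Real.exp_le_exp.mpr ?_
    have h2 : Real.log y ≤ δ * Real.log T := by
      have := Real.log_le_log (by linarith) hyT
      rwa [Real.log_rpow hT0] at this
    have h3 : 0 ≤ 108 * (n:ℝ) * (Rs + 1) := by positivity
    have h4 := mul_le_mul_of_nonneg_left h2 h3
    have h5 := mul_le_mul_of_nonneg_right hδθ hlT.le
    push_cast
    nlinarith
  -- the exponent
  have hexp : ∑ i ∈ range (J y), ∑ p ∈ II y i, ‖cf h k p‖ ^ 2 / p ≤
      (n:ℝ) ^ 2 * C₄ + ∑ l, ∑ l', k l * k l' *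
        Real.log ‖riemannZeta (1 + 1 / Real.log T + ((h l - h l' : ℝ) : ℂ) * Complex.I)‖ := by
    rw [sum_II hy1 (fun p => ‖cf h k p‖ ^ 2 / p) (J y)]
    have hBA : PF y (bb y (J y)) ⊆ PP y := by
      intro p hp
      rw [mem_PF hy0] at hp
      exact (mem_PP hy0).mpr ⟨hp.1, hp.2.2.2⟩
    have h1 : ∑ p ∈ PF y (bb y (J y)), ‖cf h k p‖ ^ 2 / p ≤ ∑ p ∈ PP y, ‖cf h k p‖ ^ 2 / p :=
      sum_le_sum_of_subset_of_nonneg hBA fun _ _ _ => by positivity
    refine h1.trans ?_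
    have h2 : ∑ p ∈ PP y, ‖cf h k p‖ ^ 2 / p = ∑ l, ∑ l', k l * k l' *
        (∑ p ∈ PP y, (p : ℂ) ^ (-(1 + ((h l - h l' : ℝ) : ℂ) * Complex.I))).re := by
      rw [sum_congr rfl fun p hp => cf_sq h k ((mem_PP hy0).mp hp).1, Finset.sum_comm]
      refine sum_congr rfl fun l _ => ?_
      rw [Finset.sum_comm]
      refine sum_congr rfl fun l' _ => ?_
      rw [Complex.re_sum, Finset.mul_sum]
    rw [h2]
    have h3 : ∀ l ∈ (univ : Finset (Fin m)), ∀ l' ∈ (univ : Finset (Fin m)), k l * k l' *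
        (∑ p ∈ PP y, (p : ℂ) ^ (-(1 + ((h l - h l' : ℝ) : ℂ) * Complex.I))).re ≤
        |k l| * |k l'| * C₄ + k l * k l' *
          Real.log ‖riemannZeta (1 + 1 / Real.log T + ((h l - h l' : ℝ) : ℂ) * Complex.I)‖ := by
      intro l _ l' _
      have h4 := hTe y hyT2 hyT1 (h l - h l')
      have h5 : k l * k l' * ((∑ p ∈ PP y, (p : ℂ) ^ (-(1 + ((h l - h l' : ℝ) : ℂ) * Complex.I))).re -
          Real.log ‖riemannZeta (1 + 1 / Real.log T + ((h l - h l' : ℝ) : ℂ) * Complex.I)‖) ≤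
          |k l| * |k l'| * C₄ := by
        refine (le_abs_self _).trans ?_
        rw [abs_mul, abs_mul]
        exact mul_le_mul_of_nonneg_left h4 (by positivity)
      linarith
    refine (sum_le_sum fun l hl => sum_le_sum (h3 l hl)).trans ?_
    simp_rw [sum_add_distrib]
    refine add_le_add ?_ le_rfl
    have h6 : ∑ l, ∑ l', |k l| * |k l'| * C₄ = (∑ l, |k l|) ^ 2 * C₄ := by
      rw [sq, Finset.sum_mul_sum, Finset.sum_mul]
      refine sum_congr rfl fun l _ => ?_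
      rw [Finset.sum_mul]
    rw [h6]
    have h7 : 0 ≤ ∑ l, |k l| := sum_nonneg fun _ _ => abs_nonneg _
    gcongr
  have e5 : ∏ l, ∏ l', ‖riemannZeta (1 + 1 / Real.log T + ((h l - h l' : ℝ) : ℂ) * Complex.I)‖ ^ (k l * k l') =
      Real.exp (∑ l, ∑ l', k l * k l' *
        Real.log ‖riemannZeta (1 + 1 / Real.log T + ((h l - h l' : ℝ) : ℂ) * Complex.I)‖) := by
    rw [Real.exp_sum]
    refine prod_congr rfl fun l _ => ?_
    rw [Real.exp_sum]
    refine prod_congr rfl fun l' _ => ?_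
    have hz : riemannZeta (1 + 1 / Real.log T + ((h l - h l' : ℝ) : ℂ) * Complex.I) ≠ 0 := by
      refine riemannZeta_ne_zero_of_one_lt_re ?_
      have e : (1 + 1 / (Real.log T : ℂ) + ((h l - h l' : ℝ) : ℂ) * Complex.I).re = 1 + 1 / Real.log T := by
        have : (1 / (Real.log T : ℂ)) = ((1 / Real.log T : ℝ) : ℂ) := by push_cast; rfl
        rw [this]
        simp
      rw [e]
      have : 0 < 1 / Real.log T := by positivity
      linarith
    rw [Real.rpow_def_of_pos (norm_pos_iff.mpr hz)]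
    congr 1
    ring
  rw [e5]
  refine (i1.trans i2).trans ?_
  rw [i3]
  have i4 : ∫ t in T..(T + H), ‖D t‖ ^ 2 ≤ 3 * H * (Real.exp ((n:ℝ) ^ 2 * C₄) * Real.exp (∑ l, ∑ l', k l * k l' *
        Real.log ‖riemannZeta (1 + 1 / Real.log T + ((h l - h l' : ℝ) : ℂ) * Complex.I)‖)) := by
    refine hDm.trans ?_
    rw [← Real.exp_add]
    have hE := Real.exp_le_exp.mpr hexp
    refine mul_le_mul (by linarith) hE (Real.exp_pos _).le (by positivity)
  calc C₁ * 4 * ∫ t in T..(T + H), ‖D t‖ ^ 2 ≤ C₁ * 4 * (3 * H * (Real.exp ((n:ℝ) ^ 2 * C₄) *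
        Real.exp (∑ l, ∑ l', k l * k l' *
        Real.log ‖riemannZeta (1 + 1 / Real.log T + ((h l - h l' : ℝ) : ℂ) * Complex.I)‖))) :=
        mul_le_mul_of_nonneg_left i4 (by positivity)
    _ = _ := by ring

end Pool.Agent.V11104.SM
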