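import Mathlib

set_option autoImplicit false

/-!
Sets of large proportion and simultaneous shifts.
-/

namespace Pool.Agent.V11104.SM

open Finset Filter Topology MeasureTheory

lemma vol_fin (a b : ℝ) (S : Set ℝ) : volume (Set.Icc a b ∩ S) ≠ ⊤ :=
  measure_ne_top_of_subset Set.inter_subset_left (by rw [Real.volume_Icc]; exact ENNReal.ofReal_ne_top)

/-- almost every point stays in the set after shifts -/
theorem shift_meas {S : Set ℝ} {ε : ℝ}
    (h : ∀ α : ℝ, 0 ≤ α → α < 1 → ∀ᶠ T : ℝ in atTop, ∀ H : ℝ, T / Real.log T ^ α ≤ H → H ≤ T →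
      volume.real (Set.Icc T (T + H) ∩ Sᶜ) ≤ ε * H) (m : ℕ) :
    ∀ α : ℝ, 0 ≤ α → α < 1 → ∀ᶠ T : ℝ in atTop, ∀ H : ℝ, T / Real.log T ^ α ≤ H → H ≤ T →
      ∀ d : Fin m → ℝ, (∀ l, |d l| ≤ T / 2) →
        (1 - m * ε) * H ≤ volume.real {t | t ∈ Set.Icc T (T + H) ∧ ∀ l, t + d l ∈ S} := by
  intro α hα hα1
  set β : ℝ := (α + 1) / 2 with hβ
  obtain ⟨T₁, hT₁⟩ := eventually_atTop.mp (h β (by positivity) (by linarith))
  have t1 : Tendsto (fun T : ℝ => Real.log T ^ (β - α)) atTop atTop :=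
    (tendsto_rpow_atTop (by linarith)).comp Real.tendsto_log_atTop
  filter_upwards [eventually_ge_atTop (2 * T₁), eventually_ge_atTop (4:ℝ), t1.eventually_ge_atTop 8,
    Real.tendsto_log_atTop.eventually_gt_atTop 0] with T hT1 hT4 hT8 hL H hH1 hH2 d hd
  have hT0 : 0 < T := by linarith
  have hH0 : 0 ≤ H := by
    refine le_trans ?_ hH1
    have := Real.rpow_nonneg hL.le α
    positivity
  -- the half intervals
  have half : ∀ T' : ℝ, T / 2 ≤ T' → T' ≤ 2 * T → volume.real (Set.Icc T' (T' + H / 2) ∩ Sᶜ) ≤ ε * (H / 2) := by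
    intro T' h1 h2
    refine hT₁ T' (by linarith) (H / 2) ?_ (by linarith)
    have l1 : Real.log T / 2 ≤ Real.log T' := by
      have h3 : Real.log (T / 2) ≤ Real.log T' := Real.log_le_log (by positivity) h1
      rw [Real.log_div hT0.ne' (by norm_num)] at h3
      have h4 : Real.log 4 ≤ Real.log T := Real.log_le_log (by norm_num) hT4
      have h5 : Real.log 4 = 2 * Real.log 2 := by
        rw [show (4:ℝ) = 2 ^ 2 by norm_num, Real.log_pow]; norm_num
      linarith
    have l2 : (Real.log T / 2) ^ β ≤ Real.log T' ^ β := Real.rpow_le_rpow (by positivity) l1 (by positivity)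
    have l3 : 4 * Real.log T ^ α ≤ (Real.log T / 2) ^ β := by
      rw [Real.div_rpow hL.le (by norm_num)]
      have h6 : (2:ℝ) ^ β ≤ 2 := by
        calc (2:ℝ) ^ β ≤ 2 ^ (1:ℝ) := Real.rpow_le_rpow_of_exponent_le (by norm_num) (by linarith)
          _ = 2 := Real.rpow_one _
      rw [le_div_iff₀ (by positivity)]
      have h7 : Real.log T ^ β = Real.log T ^ α * Real.log T ^ (β - α) := by
        rw [← Real.rpow_add hL]; congr 1; ring
      rw [h7]
      have h8 : 0 < Real.log T ^ α := Real.rpow_pos_of_pos hL α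
      have h9 : 4 * Real.log T ^ α * 2 ^ β ≤ 4 * Real.log T ^ α * 2 := mul_le_mul_of_nonneg_left h6 (by positivity)
      nlinarith
    have hp : 0 < Real.log T ^ α := Real.rpow_pos_of_pos hL α
    have l4 := l3.trans l2
    have hp2 : 0 < Real.log T' ^ β := by linarith
    rw [div_le_iff₀ hp2]
    rw [div_le_iff₀ hp] at hH1
    have l5 := mul_le_mul_of_nonneg_left l4 (by positivity : (0:ℝ) ≤ H / 2)
    nlinarith
  -- one shift
  have one : ∀ l, volume.real (Set.Icc T (T + H) ∩ {t | t + d l ∉ S}) ≤ ε * H := by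
    intro l
    obtain ⟨d1, d2⟩ := abs_le.mp (hd l)
    have e : Set.Icc T (T + H) ∩ {t | t + d l ∉ S} =
        (fun t => t + d l) ⁻¹' (Set.Icc (T + d l) (T + d l + H) ∩ Sᶜ) := by
      ext t
      simp only [Set.mem_inter_iff, Set.mem_Icc, Set.mem_ofPred_eq, Set.mem_preimage, Set.mem_compl_iff]
      constructor
      · rintro ⟨⟨h1, h2⟩, h3⟩; exact ⟨⟨by linarith, by linarith⟩, h3⟩
      · rintro ⟨⟨h1, h2⟩, h3⟩; exact ⟨⟨by linarith, by linarith⟩, h3⟩
    have e2 : volume.real (Set.Icc T (T + H) ∩ {t | t + d l ∉ S}) =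
        volume.real (Set.Icc (T + d l) (T + d l + H) ∩ Sᶜ) := by
      rw [e, Measure.real, Measure.real, measure_preimage_add_right]
    rw [e2]
    have hsub : Set.Icc (T + d l) (T + d l + H) ∩ Sᶜ ⊆ (Set.Icc (T + d l) (T + d l + H / 2) ∩ Sᶜ) ∪
        (Set.Icc (T + d l + H / 2) (T + d l + H / 2 + H / 2) ∩ Sᶜ) := by
      rintro t ⟨⟨h1, h2⟩, h3⟩
      rcases le_total t (T + d l + H / 2) with h4 | h4
      · exact Or.inl ⟨⟨h1, h4⟩, h3⟩
      · exact Or.inr ⟨⟨h4, by linarith⟩, h3⟩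
    have m1 := measureReal_mono (μ := volume) hsub (measure_union_ne_top (vol_fin _ _ _) (vol_fin _ _ _))
    have m2 := measureReal_union_le (μ := volume) (Set.Icc (T + d l) (T + d l + H / 2) ∩ Sᶜ)
      (Set.Icc (T + d l + H / 2) (T + d l + H / 2 + H / 2) ∩ Sᶜ)
    have m3 := half (T + d l) (by linarith) (by linarith)
    have m4 := half (T + d l + H / 2) (by linarith) (by linarith)
    linarith
  -- all shifts
  set G : Set ℝ := {t | t ∈ Set.Icc T (T + H) ∧ ∀ l, t + d l ∈ S} with hG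
  have hcov : Set.Icc T (T + H) ⊆ G ∪ ⋃ l ∈ (univ : Finset (Fin m)), (Set.Icc T (T + H) ∩ {t | t + d l ∉ S}) := by
    intro t ht
    by_cases hg : ∀ l, t + d l ∈ S
    · exact Or.inl ⟨ht, hg⟩
    · right
      push Not at hg
      obtain ⟨l, hl⟩ := hg
      rw [Set.mem_iUnion₂]
      exact ⟨l, mem_univ l, ht, hl⟩
  have hGf : volume G ≠ ⊤ := measure_ne_top_of_subset (fun t ht => ht.1 : G ⊆ Set.Icc T (T + H))
    (by rw [Real.volume_Icc]; exact ENNReal.ofReal_ne_top)
  have hUf : volume (⋃ l ∈ (univ : Finset (Fin m)), (Set.Icc T (T + H) ∩ {t | t + d l ∉ S})) ≠ ⊤ :=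
    measure_ne_top_of_subset (Set.iUnion₂_subset fun l _ => Set.inter_subset_left)
      (by rw [Real.volume_Icc]; exact ENNReal.ofReal_ne_top : volume (Set.Icc T (T + H)) ≠ ⊤)
  have m1 := measureReal_mono (μ := volume) hcov (measure_union_ne_top hGf hUf)
  have m2 := measureReal_union_le (μ := volume) G
    (⋃ l ∈ (univ : Finset (Fin m)), (Set.Icc T (T + H) ∩ {t | t + d l ∉ S}))
  have m3 := measureReal_biUnion_finset_le (μ := volume) (univ : Finset (Fin m))
    (fun l => Set.Icc T (T + H) ∩ {t | t + d l ∉ S})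
  have m4 : ∑ l ∈ (univ : Finset (Fin m)), volume.real (Set.Icc T (T + H) ∩ {t | t + d l ∉ S}) ≤ m * (ε * H) := by
    calc _ ≤ ∑ _l : Fin m, ε * H := sum_le_sum fun l _ => one l
      _ = _ := by simp
  have m5 : volume.real (Set.Icc T (T + H)) = H := by
    rw [Real.volume_real_Icc_of_le (by linarith)]; ring
  rw [m5] at m1
  linarith

end Pool.Agent.V11104.SM
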